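import Mathlib

/-!
# `j`-primitive degrees of nonnegative tensors: definitions and basic facts
-/

set_option autoImplicit false

namespace Pool.Agent.H43.Gaps

variable {m n : ℕ}

/-- For an order `m` dimension `n` array `A` and a set `X` of indices, the set of all `u` such that
`A (u, i₂, …, i_m) > 0` for some `i₂, …, i_m ∈ X`. -/
def next (A : (Fin m → Fin n) → ℝ) (X : Set (Fin n)) : Set (Fin n) :=
  {u | ∃ i : Fin m → Fin n,
    (∀ l : Fin m, l.val = 0 → i l = u) ∧ (∀ l : Fin m, l.val ≠ 0 → i l ∈ X) ∧ 0 < A i}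

/-- The sets `S_k(A, j)`; the value at `k = 0` is the convention `{j}`, which makes
`S_1(A, j) = {u | a_{u j … j} > 0}`. -/
def S (A : (Fin m → Fin n) → ℝ) (j : Fin n) : ℕ → Set (Fin n)
  | 0 => {j}
  | k + 1 => next A (S A j k)

/-- `A` is `j`-primitive. -/
def JPrimitive (A : (Fin m → Fin n) → ℝ) (j : Fin n) : Prop :=
  ∃ k, 1 ≤ k ∧ S A j k = Set.univ

/-- `A` is primitive. -/
def Primitive (A : (Fin m → Fin n) → ℝ) : Prop := ∀ j, JPrimitive A j

/-- `R_j(m, n)`: the set of all `γ_j(A)`, the least `k ≥ 1` with `S_k(A, j) = [n]`, for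
nonnegative `A` of order `m` and dimension `n` that are `j`-primitive but not primitive. -/
def R (m n : ℕ) (j : Fin n) : Set ℕ :=
  {g | ∃ A : (Fin m → Fin n) → ℝ, (∀ i, 0 ≤ A i) ∧ ¬ Primitive A ∧
    IsLeast {k | 1 ≤ k ∧ S A j k = Set.univ} g}

/-- `R_j(m, n)` has a gap. -/
def HasGap (m n : ℕ) (j : Fin n) : Prop :=
  ∃ k, k ∉ R m n j ∧ (∃ a ∈ R m n j, a < k) ∧ (∃ b ∈ R m n j, k < b)

/-! ### Basic facts -/

theorem next_mono (A : (Fin m → Fin n) → ℝ) {X Y : Set (Fin n)} (h : X ⊆ Y) :
    next A X ⊆ next A Y := by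
  rintro u ⟨i, h0, h1, h2⟩
  exact ⟨i, h0, fun l hl => h (h1 l hl), h2⟩

theorem S_mono_of_subset (A : (Fin m → Fin n) → ℝ) {j j' : Fin n} {a b : ℕ}
    (h : S A j a ⊆ S A j' b) (k : ℕ) : S A j (a + k) ⊆ S A j' (b + k) := by
  induction k with
  | zero => exact h
  | succ k ih => exact next_mono A ih

/-- Once the whole set is reached it stays. -/
theorem S_univ_succ (A : (Fin m → Fin n) → ℝ) {j : Fin n} {k : ℕ} (hk : 1 ≤ k)
    (h : S A j k = Set.univ) : S A j (k + 1) = Set.univ := by
  obtain ⟨k, rfl⟩ := Nat.exists_eq_add_of_le hk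
  rw [add_comm 1 k] at h ⊢
  apply Set.eq_univ_of_univ_subset
  calc Set.univ = S A j (k + 1) := h.symm
    _ = next A (S A j k) := rfl
    _ ⊆ next A (S A j (k + 1)) := next_mono A (by rw [h]; exact Set.subset_univ _)

theorem S_univ_of_le (A : (Fin m → Fin n) → ℝ) {j : Fin n} {k l : ℕ} (hk : 1 ≤ k)
    (h : S A j k = Set.univ) (hkl : k ≤ l) : S A j l = Set.univ := by
  induction l, hkl using Nat.le_induction with
  | base => exact h
  | succ l hl ih => exact S_univ_succ A (hk.trans hl) ih

/-- A convenient way of proving that `g` is the `j`-primitive degree. -/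
theorem isLeast_of (A : (Fin m → Fin n) → ℝ) {j : Fin n} {g : ℕ}
    (h : S A j (g + 1) = Set.univ) (h' : g = 0 ∨ S A j g ≠ Set.univ) :
    IsLeast {k | 1 ≤ k ∧ S A j k = Set.univ} (g + 1) := by
  refine ⟨⟨by omega, h⟩, ?_⟩
  rintro k ⟨hk1, hk⟩
  by_contra hlt
  push Not at hlt
  rcases h' with rfl | h'
  · omega
  · exact h' (S_univ_of_le A hk1 hk (by omega))

/-! ### Monotonicity in the order -/

theorem R_succ_order (hm : 2 ≤ m) (j : Fin n) : R m n j ⊆ R (m + 1) n j := by
  rintro g ⟨A, hA, hp, hg⟩
  set A' : (Fin (m + 1) → Fin n) → ℝ := fun i => A (fun l => i l.castSucc) with hA'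
  have key : ∀ X, next A' X = next A X := by
    intro X
    ext u
    constructor
    · rintro ⟨i, h0, h1, h2⟩
      refine ⟨fun l => i l.castSucc, fun l hl => h0 _ (by simpa using hl),
        fun l hl => h1 _ (by simpa using hl), h2⟩
    · rintro ⟨i, h0, h1, h2⟩
      refine ⟨Fin.snoc i (i ⟨1, by omega⟩), ?_, ?_, ?_⟩
      · intro l hl
        have hlt : l.val < m := by omega
        have : l = Fin.castSucc ⟨l.val, hlt⟩ := by ext; rfl
        rw [this, Fin.snoc_castSucc]
        exact h0 _ hl
      · intro l hl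
        rcases Fin.eq_castSucc_or_eq_last l with ⟨l', rfl⟩ | rfl
        · rw [Fin.snoc_castSucc]
          exact h1 _ (by simpa using hl)
        · rw [Fin.snoc_last]
          exact h1 _ (by simp)
      · simp only [hA', Fin.snoc_castSucc]
        exact h2
  have hS : ∀ j k, S A' j k = S A j k := by
    intro j k
    induction k with
    | zero => rfl
    | succ k ih => simp only [S]; rw [ih, key]
  refine ⟨A', fun i => hA _, ?_, ?_⟩
  · intro h
    apply hp
    intro i
    obtain ⟨k, hk1, hk⟩ := h i
    exact ⟨k, hk1, by rw [← hS]; exact hk⟩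
  · simpa only [hS] using hg

theorem R_mono_order {m' : ℕ} (hm : 2 ≤ m) (h : m ≤ m') (j : Fin n) : R m n j ⊆ R m' n j := by
  induction m', h using Nat.le_induction with
  | base => exact le_rfl
  | succ l hl ih => exact ih.trans (R_succ_order (hm.trans hl) j)

/-! ### Pulling back along a surjection -/

theorem R_pullback {n' : ℕ} (π : Fin n → Fin n') (hπ : Function.Surjective π) (j : Fin n)
    (hj : ∀ x, π x = π j → x = j) : R m n' (π j) ⊆ R m n j := by
  rintro g ⟨A, hA, hp, hg⟩
  set A' : (Fin m → Fin n) → ℝ := fun i => A (fun l => π (i l)) with hA'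
  have key : ∀ X, next A' (π ⁻¹' X) = π ⁻¹' (next A X) := by
    intro X
    ext u
    constructor
    · rintro ⟨i, h0, h1, h2⟩
      refine ⟨fun l => π (i l), fun l hl => congrArg π (h0 l hl), fun l hl => h1 l hl, h2⟩
    · rintro ⟨i, h0, h1, h2⟩
      refine ⟨fun l => if l.val = 0 then u else Function.surjInv hπ (i l), ?_, ?_, ?_⟩
      · intro l hl; simp [hl]
      · intro l hl
        simp only [hl, if_false, Set.mem_preimage, Function.surjInv_eq]
        exact h1 l hl
      · have : (fun l => π (if l.val = 0 then u else Function.surjInv hπ (i l))) = i := by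
          funext l
          by_cases hl : l.val = 0
          · simp only [hl, if_true]; exact (h0 l hl).symm
          · simp only [hl, if_false, Function.surjInv_eq]
        simp only [hA']
        rw [this]
        exact h2
  have hS : ∀ k, S A' j k = π ⁻¹' (S A (π j) k) := by
    intro k
    induction k with
    | zero =>
      ext x
      simp only [S, Set.mem_singleton_iff, Set.mem_preimage]
      exact ⟨fun h => by rw [h], hj x⟩
    | succ k ih => simp only [S]; rw [ih, key]
  have hpre : ∀ Y : Set (Fin n'), π ⁻¹' Y = Set.univ ↔ Y = Set.univ := by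
    intro Y
    rw [← Set.preimage_univ (f := π)]
    exact ⟨fun h => hπ.preimage_injective h, fun h => by rw [h]⟩
  refine ⟨A', fun i => hA _, ?_, ?_⟩
  · intro h
    apply hp
    intro i
    obtain ⟨x, rfl⟩ := hπ i
    obtain ⟨k, hk1, hk⟩ := h x
    refine ⟨k, hk1, ?_⟩
    have hsub : ∀ k, S A' x k ⊆ π ⁻¹' (S A (π x) k) := by
      intro k
      induction k with
      | zero =>
        intro y hy
        simp only [S, Set.mem_singleton_iff] at hy
        simp [S, hy]
      | succ k ih =>
        simp only [S]
        rw [← key]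
        exact next_mono A' ih
    rw [← hpre]
    apply Set.eq_univ_of_univ_subset
    rw [← hk]
    exact hsub k
  · have : {k | 1 ≤ k ∧ S A' j k = Set.univ} = {k | 1 ≤ k ∧ S A (π j) k = Set.univ} := by
      ext k
      simp only [Set.mem_ofPred_eq, hS, hpre]
    rw [this]
    exact hg

/-- `R_j(m, n)` does not depend on `j`. -/
theorem R_indep (j j' : Fin n) : R m n j = R m n j' := by
  have : ∀ a b : Fin n, R m n a ⊆ R m n b := by
    intro a b
    have h := R_pullback (m := m) (Equiv.swap a b) (Equiv.swap a b).surjective b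
      (fun x hx => (Equiv.swap a b).injective hx)
    simpa using h
  exact Set.Subset.antisymm (this _ _) (this _ _)

/-- Duplicating indices: the degree sets grow with the dimension. -/
theorem R_mono_dim {n' : ℕ} (hn' : 2 ≤ n') (h : n' ≤ n) (j : Fin n) (j' : Fin n') :
    R m n' j' ⊆ R m n j := by
  -- reduce to `j = 0`, `j' = 0`
  have h0 : 0 < n' := by omega
  have h0' : 0 < n := by omega
  rw [R_indep j ⟨0, h0'⟩]
  rw [R_indep j' ⟨0, h0⟩]
  set π : Fin n → Fin n' := fun x => if hx : x.val < n' then ⟨x.val, hx⟩ else ⟨1, by omega⟩ with hπ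
  have h1 : π ⟨0, h0'⟩ = ⟨0, h0⟩ := by simp [hπ, h0]
  have h2 := R_pullback (m := m) π ?_ ⟨0, h0'⟩ ?_
  · rw [h1] at h2; exact h2
  · intro y
    exact ⟨⟨y.val, by omega⟩, by simp [hπ]⟩
  · intro x hx
    rw [h1] at hx
    simp only [hπ] at hx
    split_ifs at hx with h3
    · ext; simpa using hx
    · simp at hx

/-! ### High order: `m ≥ n` -/

theorem R_down (hm : 2 ≤ m) (hnm : n ≤ m) (j : Fin n) {g : ℕ} (hg : g + 2 ∈ R m n j) :
    g + 1 ∈ R m n j := by
  classical
  obtain ⟨A, hA, hp, ⟨-, hgu⟩, hmin⟩ := hg
  have hne : ∀ k, 1 ≤ k → k < g + 2 → S A j k ≠ Set.univ := by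
    intro k hk1 hk2 hk3
    have := hmin ⟨hk1, hk3⟩
    omega
  -- the sets `S A j k` are nonempty, `k ≤ g + 2`
  have hstep : ∀ i : Fin n, ∀ k, S A j g ⊆ S A i k → S A i (k + 2) = Set.univ := by
    intro i k hk
    have := S_mono_of_subset A hk 2
    rw [hgu] at this
    exact Set.eq_univ_of_univ_subset this
  have hn0 : 0 < n := j.pos
  have hgne : (S A j g).Nonempty := by
    by_contra hcon
    rw [Set.not_nonempty_iff_eq_empty] at hcon
    have h1 : S A j (g + 1) = ∅ := by
      simp only [S]
      rw [hcon]
      ext u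
      simp only [Set.mem_empty_iff_false, iff_false]
      rintro ⟨i, -, h1, -⟩
      exact h1 ⟨1, by omega⟩ (by simp)
    have h2 : S A j (g + 2) = ∅ := by
      rw [show S A j (g + 2) = next A (S A j (g + 1)) from rfl, h1]
      ext u
      simp only [Set.mem_empty_iff_false, iff_false]
      rintro ⟨i, -, h1, -⟩
      exact h1 ⟨1, by omega⟩ (by simp)
    rw [h2] at hgu
    have : (⟨0, hn0⟩ : Fin n) ∈ (∅ : Set (Fin n)) := by rw [hgu]; trivial
    exact this
  set A' : (Fin m → Fin n) → ℝ :=
    fun i => if 0 < A i ∨ (∀ x, x ∈ S A j g ↔ ∃ l : Fin m, l.val ≠ 0 ∧ i l = x) then 1 else 0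
    with hA'
  -- `next A'` agrees with `next A` on sets not containing `S A j g`
  have hnext1 : ∀ X, ¬ S A j g ⊆ X → next A' X = next A X := by
    intro X hX
    ext u
    constructor
    · rintro ⟨i, h0, h1, h2⟩
      simp only [hA'] at h2
      split_ifs at h2 with h3
      · rcases h3 with h3 | h3
        · exact ⟨i, h0, h1, h3⟩
        · exfalso
          apply hX
          intro x hx
          obtain ⟨l, hl, rfl⟩ := (h3 x).1 hx
          exact h1 l hl
      · exact absurd h2 (lt_irrefl _)
    · rintro ⟨i, h0, h1, h2⟩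
      refine ⟨i, h0, h1, ?_⟩
      simp only [hA']
      rw [if_pos (Or.inl h2)]
      exact one_pos
  have hnext2 : S A j g ≠ Set.univ ∨ g = 0 → next A' (S A j g) = Set.univ := by
    intro hgn
    apply Set.eq_univ_of_forall
    intro u
    -- a function from `Fin m` onto `S A j g` on the nonzero indices
    obtain ⟨x0, hx0⟩ := hgne
    have hcard : (S A j g).toFinset.card ≤ m - 1 := by
      rcases hgn with hgn | hgn
      · obtain ⟨y, hy⟩ := (Set.ne_univ_iff_exists_notMem _).1 hgn
        have h2 : (S A j g).toFinset.card < Fintype.card (Fin n) :=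
          Finset.card_lt_univ_of_notMem (x := y) (by simpa using hy)
        rw [Fintype.card_fin] at h2
        omega
      · subst hgn
        have h3 : (S A j 0).toFinset ⊆ {j} := by
          intro x hx
          rw [Set.mem_toFinset] at hx
          simpa [S] using hx
        have := Finset.card_le_card h3
        rw [Finset.card_singleton] at this
        omega
    -- enumerate
    set q := (S A j g).toFinset.card with hq
    let e := (S A j g).toFinset.equivFin
    refine ⟨fun l => if l.val = 0 then u else
      if h : l.val - 1 < q then (e.symm ⟨l.val - 1, h⟩ : Fin n) else x0, ?_, ?_, ?_⟩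
    · intro l hl; simp [hl]
    · intro l hl
      simp only [hl, if_false]
      split_ifs with h
      · exact Set.mem_toFinset.1 (e.symm ⟨l.val - 1, h⟩).2
      · exact hx0
    · simp only [hA']
      rw [if_pos]
      · exact one_pos
      right
      intro x
      constructor
      · intro hx
        have hx' : x ∈ (S A j g).toFinset := by simpa using hx
        have hlt := (e ⟨x, hx'⟩).2
        refine ⟨⟨(e ⟨x, hx'⟩).val + 1, by omega⟩, by simp, ?_⟩
        have h5 : (e ⟨x, hx'⟩).val < q := hlt
        simp [h5]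
      · rintro ⟨l, hl, hlx⟩
        rw [← hlx]
        simp only [hl, if_false]
        split_ifs with h
        · exact Set.mem_toFinset.1 (e.symm ⟨l.val - 1, h⟩).2
        · exact hx0
  -- the new orbit
  have horb : ∀ k ≤ g, S A' j k = S A j k := by
    intro k hk
    induction k with
    | zero => rfl
    | succ k ih =>
      simp only [S]
      rw [ih (by omega)]
      apply hnext1
      intro hsub
      exact hne (k + 2) (by omega) (by omega) (hstep j k hsub)
  have hlast : S A' j (g + 1) = Set.univ := by
    show next A' (S A' j g) = Set.univ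
    rw [horb g le_rfl]
    apply hnext2
    rcases Nat.eq_zero_or_pos g with h | h
    · right; exact h
    · left; exact hne g h (by omega)
  refine ⟨A', fun i => by simp only [hA']; split_ifs <;> norm_num, ?_, ?_⟩
  · intro h
    apply hp
    intro i
    by_contra hi
    have hi' : ∀ k, 1 ≤ k → S A i k ≠ Set.univ := by
      intro k hk1 hk2
      exact hi ⟨k, hk1, hk2⟩
    have hsame : ∀ k, S A' i k = S A i k := by
      intro k
      induction k with
      | zero => rfl
      | succ k ih =>
        simp only [S]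
        rw [ih]
        apply hnext1
        intro hsub
        exact hi' (k + 2) (by omega) (hstep i k hsub)
    obtain ⟨k, hk1, hk⟩ := h i
    rw [hsame] at hk
    exact hi' k hk1 hk
  · apply isLeast_of
    · exact hlast
    · rcases Nat.eq_zero_or_pos g with h | h
      · left; exact h
      · right
        rw [horb g le_rfl]
        exact hne g h (by omega)

theorem no_gap_of_le (hm : 2 ≤ m) (hnm : n ≤ m) (j : Fin n) : ¬ HasGap m n j := by
  rintro ⟨k, hk, ⟨a, ha, hak⟩, ⟨b, hb, hkb⟩⟩
  have ha1 : 1 ≤ a := by
    obtain ⟨A, -, -, h, -⟩ := ha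
    exact h.1
  -- go down from `b` to `k`
  have : ∀ d, k + d ∈ R m n j → k ∈ R m n j := by
    intro d
    induction d with
    | zero => intro h; exact h
    | succ d ih =>
      intro h
      apply ih
      have h1 : (k + d - 1) + 2 ∈ R m n j := by
        rw [show k + d - 1 + 2 = k + (d + 1) from by omega]; exact h
      have h2 := R_down hm hnm j h1
      rw [show k + d - 1 + 1 = k + d from by omega] at h2
      exact h2
  apply hk
  apply this (b - k)
  rw [show k + (b - k) = b from by omega]
  exact hb

end Pool.Agent.H43.Gaps
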