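import Mathlib
import Pool.Agent.H43.Gaps.Defs

/-!
# Order `m ≥ 3`: all values up to `(n - 1) ^ 2` are attained
-/

set_option autoImplicit false

namespace Pool.Agent.H43.Gaps

variable {n : ℕ}

open Classical in
/-- The order `3` array of a ternary relation. -/
noncomputable def arr3 (P : Fin n → Fin n → Fin n → Prop) : (Fin 3 → Fin n) → ℝ :=
  fun i => if P (i 0) (i 1) (i 2) then 1 else 0

theorem arr3_nonneg (P : Fin n → Fin n → Fin n → Prop) (i : Fin 3 → Fin n) : 0 ≤ arr3 P i := by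
  unfold arr3; split_ifs <;> norm_num

theorem arr3_pos (P : Fin n → Fin n → Fin n → Prop) (i : Fin 3 → Fin n) :
    0 < arr3 P i ↔ P (i 0) (i 1) (i 2) := by
  unfold arr3
  split_ifs with h
  · simp [h]
  · simp [h]

theorem mem_next_arr3 (P : Fin n → Fin n → Fin n → Prop) (X : Set (Fin n)) (u : Fin n) :
    u ∈ next (arr3 P) X ↔ ∃ v ∈ X, ∃ w ∈ X, P u v w := by
  constructor
  · rintro ⟨i, h0, h1, h2⟩
    rw [arr3_pos] at h2
    refine ⟨i 1, h1 1 (by decide), i 2, h1 2 (by decide), ?_⟩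
    rw [← h0 0 rfl]
    exact h2
  · rintro ⟨v, hv, w, hw, h⟩
    refine ⟨![u, v, w], ?_, ?_, ?_⟩
    · intro l hl
      have : l = 0 := Fin.ext hl
      subst this; rfl
    · intro l hl
      fin_cases l
      · exact absurd rfl hl
      · exact hv
      · exact hw
    · rw [arr3_pos]
      exact h

/-- Cyclic interval with end `ρ` and `q + 1` elements in `{0, …, N}`. -/
def Iv (N q ρ : ℕ) : Set (Fin (N + 1)) :=
  {v | (v.val ≤ ρ ∧ ρ ≤ v.val + q) ∨ (N + 1 + ρ ≤ v.val + q)}

theorem mem_Iv (N q ρ : ℕ) (v : Fin (N + 1)) :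
    v ∈ Iv N q ρ ↔ (v.val ≤ ρ ∧ ρ ≤ v.val + q) ∨ (N + 1 + ρ ≤ v.val + q) := Iff.rfl

/-- The interval at time `c`. -/
def It (N c : ℕ) : Set (Fin (N + 1)) := Iv N (c / N) (c % N)

theorem It_succ (N c : ℕ) (hN : 0 < N) :
    (c % N + 1 < N ∧ It N (c + 1) = Iv N (c / N) (c % N + 1)) ∨
    (c % N + 1 = N ∧ It N (c + 1) = Iv N (c / N + 1) 0) := by
  have h1 := Nat.div_add_mod c N
  have h2 := Nat.mod_lt c hN
  rcases lt_or_ge (c % N + 1) N with h | h
  · left
    refine ⟨h, ?_⟩
    have h3 : (c + 1) / N = c / N ∧ (c + 1) % N = c % N + 1 := by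
      rw [Nat.div_mod_unique hN]
      exact ⟨by omega, h⟩
    rw [It, h3.1, h3.2]
  · right
    refine ⟨by omega, ?_⟩
    have h3 : (c + 1) / N = c / N + 1 ∧ (c + 1) % N = 0 := by
      rw [Nat.div_mod_unique hN]
      refine ⟨?_, hN⟩
      have h4 : N * (c / N + 1) = N * (c / N) + N := by ring
      omega
    rw [It, h3.1, h3.2]

/-- The start of the interval at time `K`. -/
def ast (N K : ℕ) : ℕ := if K / N ≤ K % N then K % N - K / N else N + 1 + K % N - K / N

/-- The rules of the truncated network. -/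
def PW (N K : ℕ) (u v w : Fin (N + 1)) : Prop :=
  u.val = v.val + 1 ∨ (u.val = 0 ∧ v.val + 1 = N) ∨ (u.val = 0 ∧ v.val = N ∧ w ≠ v) ∨
    (v.val = ast N K ∧ w.val = K % N ∧ u ∉ It N (K + 1))

theorem next_It (N K c : ℕ) (hN : 0 < N) (hK : K < N ^ 2) (hc : c < K) :
    next (arr3 (PW N K)) (It N c) = It N (c + 1) := by
  have hQ : K / N < N := by
    rw [Nat.div_lt_iff_lt_mul hN]; rwa [sq] at hK
  have hr := Nat.mod_lt K hN
  have hρ := Nat.mod_lt c hN
  have z1 : 0 ≤ c / N := Nat.zero_le _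
  have z2 : 0 ≤ K / N := Nat.zero_le _
  have z3 : 0 ≤ c % N := Nat.zero_le _
  have z4 : 0 ≤ K % N := Nat.zero_le _
  have hlex : c / N < K / N ∨ (c / N = K / N ∧ c % N < K % N) := by
    rcases lt_or_eq_of_le (Nat.div_le_div_right (c := N) hc.le) with h | h
    · left; exact h
    · right
      refine ⟨h, ?_⟩
      have h1 := Nat.div_add_mod c N
      have h2 := Nat.div_add_mod K N
      rw [h] at h1
      omega
  have hS := It_succ N c hN
  have hSK := It_succ N K hN
  ext u
  rw [mem_next_arr3]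
  have hu := u.2
  constructor
  · rintro ⟨v, hv, w, hw, h | h | h | h⟩
    · have hv' := v.2
      rw [It, mem_Iv] at hv
      rcases hS with ⟨h1, h2⟩ | ⟨h1, h2⟩ <;> rw [h2, mem_Iv] <;> omega
    · have hv' := v.2
      rw [It, mem_Iv] at hv
      rcases hS with ⟨h1, h2⟩ | ⟨h1, h2⟩ <;> rw [h2, mem_Iv] <;> omega
    · have hv' := v.2
      rw [It, mem_Iv] at hv
      obtain ⟨ha, hb, -⟩ := h
      rcases hS with ⟨h1, h2⟩ | ⟨h1, h2⟩ <;> rw [h2, mem_Iv] <;> omega
    · obtain ⟨ha, hb, hx⟩ := h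
      have hv' := v.2
      rw [It, mem_Iv] at hv hw
      unfold ast at ha
      rcases hS with ⟨h1, h2⟩ | ⟨h1, h2⟩ <;> rcases hSK with ⟨h3, h4⟩ | ⟨h3, h4⟩ <;>
        rw [h4, mem_Iv] at hx <;> rw [h2, mem_Iv] <;> split_ifs at ha <;> omega
  · intro h
    rcases Nat.eq_zero_or_pos u.val with h0 | h0
    · rcases hS with ⟨h1, h2⟩ | ⟨h1, h2⟩
      · rw [h2, mem_Iv] at h
        refine ⟨⟨N, by omega⟩, ?_, ⟨c % N, by omega⟩, ?_, ?_⟩
        · rw [It, mem_Iv]; simp only; omega
        · rw [It, mem_Iv]; simp only; omega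
        · right; right; left
          refine ⟨h0, rfl, ?_⟩
          intro h5
          have := congrArg Fin.val h5
          simp only at this
          omega
      · refine ⟨⟨N - 1, by omega⟩, ?_, ⟨N - 1, by omega⟩, ?_, ?_⟩
        · rw [It, mem_Iv]; simp only; omega
        · rw [It, mem_Iv]; simp only; omega
        · right; left
          refine ⟨h0, ?_⟩
          simp only; omega
    · refine ⟨⟨u.val - 1, by omega⟩, ?_, ⟨u.val - 1, by omega⟩, ?_, ?_⟩
      · rcases hS with ⟨h1, h2⟩ | ⟨h1, h2⟩ <;> rw [h2, mem_Iv] at h <;> rw [It, mem_Iv] <;>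
          simp only <;> omega
      · rcases hS with ⟨h1, h2⟩ | ⟨h1, h2⟩ <;> rw [h2, mem_Iv] at h <;> rw [It, mem_Iv] <;>
          simp only <;> omega
      · left; simp only; omega

theorem next_It_last (N K : ℕ) (hN : 0 < N) (hK : K < N ^ 2) :
    next (arr3 (PW N K)) (It N K) = Set.univ := by
  have hQ : K / N < N := by
    rw [Nat.div_lt_iff_lt_mul hN]; rwa [sq] at hK
  have hr := Nat.mod_lt K hN
  have z2 : 0 ≤ K / N := Nat.zero_le _
  have z4 : 0 ≤ K % N := Nat.zero_le _
  have hSK := It_succ N K hN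
  apply Set.eq_univ_of_forall
  intro u
  have hu := u.2
  rw [mem_next_arr3]
  by_cases hx : u ∈ It N (K + 1)
  · rcases Nat.eq_zero_or_pos u.val with h0 | h0
    · rcases hSK with ⟨h1, h2⟩ | ⟨h1, h2⟩
      · rw [h2, mem_Iv] at hx
        refine ⟨⟨N, by omega⟩, ?_, ⟨K % N, by omega⟩, ?_, ?_⟩
        · rw [It, mem_Iv]; simp only; omega
        · rw [It, mem_Iv]; simp only; omega
        · right; right; left
          refine ⟨h0, rfl, ?_⟩
          intro h5
          have := congrArg Fin.val h5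
          simp only at this
          omega
      · refine ⟨⟨N - 1, by omega⟩, ?_, ⟨N - 1, by omega⟩, ?_, ?_⟩
        · rw [It, mem_Iv]; simp only; omega
        · rw [It, mem_Iv]; simp only; omega
        · right; left
          refine ⟨h0, ?_⟩
          simp only; omega
    · refine ⟨⟨u.val - 1, by omega⟩, ?_, ⟨u.val - 1, by omega⟩, ?_, ?_⟩
      · rcases hSK with ⟨h1, h2⟩ | ⟨h1, h2⟩ <;> rw [h2, mem_Iv] at hx <;> rw [It, mem_Iv] <;>
          simp only <;> omega
      · rcases hSK with ⟨h1, h2⟩ | ⟨h1, h2⟩ <;> rw [h2, mem_Iv] at hx <;> rw [It, mem_Iv] <;>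
          simp only <;> omega
      · left; simp only; omega
  · have hast : ast N K < N + 1 := by unfold ast; split_ifs <;> omega
    refine ⟨⟨ast N K, hast⟩, ?_, ⟨K % N, by omega⟩, ?_, ?_⟩
    · rw [It, mem_Iv]; simp only; unfold ast; split_ifs <;> omega
    · rw [It, mem_Iv]; simp only; omega
    · right; right; right
      exact ⟨rfl, rfl, hx⟩

theorem It_ne_univ (N c : ℕ) (hN : 0 < N) (hc : c < N ^ 2) : It N c ≠ Set.univ := by
  have hQ : c / N < N := by
    rw [Nat.div_lt_iff_lt_mul hN]; rwa [sq] at hc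
  have hr := Nat.mod_lt c hN
  intro h
  have : (⟨c % N + 1, by omega⟩ : Fin (N + 1)) ∈ It N c := by rw [h]; trivial
  rw [It, mem_Iv] at this
  simp only at this
  omega

theorem orbit_W (N K : ℕ) (hN : 0 < N) (hK : K < N ^ 2) (c : ℕ) (hc : c ≤ K) :
    S (arr3 (PW N K)) 0 c = It N c := by
  induction c with
  | zero =>
    ext v
    simp only [S, Set.mem_singleton_iff, It, mem_Iv, Nat.zero_div, Nat.zero_mod]
    constructor
    · rintro rfl; left; simp
    · intro h
      have := v.2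
      ext
      simp only [Fin.val_zero]
      omega
  | succ c ih =>
    rw [S, ih (by omega)]
    exact next_It N K c hN hK (by omega)

theorem succ_mem_R3 (N K : ℕ) (hN : 0 < N) (hK : K < N ^ 2) :
    K + 1 ∈ R 3 (N + 1) (0 : Fin (N + 1)) := by
  refine ⟨arr3 (PW N K), arr3_nonneg _, ?_, ?_⟩
  · intro h
    obtain ⟨k, hk1, hk⟩ := h (Fin.last N)
    have hr := Nat.mod_lt K hN
    have h1 : S (arr3 (PW N K)) (Fin.last N) 1 = ∅ := by
      show next _ {Fin.last N} = ∅
      ext u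
      rw [mem_next_arr3]
      simp only [Set.mem_singleton_iff, Set.mem_empty_iff_false, iff_false]
      rintro ⟨v, rfl, w, rfl, h | h | h | h⟩
      · have := u.2; simp only [Fin.val_last] at h; omega
      · simp only [Fin.val_last] at h; omega
      · exact h.2.2 rfl
      · simp only [Fin.val_last] at h; omega
    have h2 : ∀ d, S (arr3 (PW N K)) (Fin.last N) (1 + d) = ∅ := by
      intro d
      induction d with
      | zero => exact h1
      | succ d ih =>
        show next _ (S (arr3 (PW N K)) (Fin.last N) (1 + d)) = ∅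
        rw [ih]
        ext u
        rw [mem_next_arr3]
        simp
    obtain ⟨d, rfl⟩ := Nat.exists_eq_add_of_le hk1
    rw [h2 d] at hk
    have : (0 : Fin (N + 1)) ∈ (∅ : Set (Fin (N + 1))) := by rw [hk]; trivial
    exact this
  · apply isLeast_of
    · show next _ (S (arr3 (PW N K)) 0 K) = _
      rw [orbit_W N K hN hK K le_rfl]
      exact next_It_last N K hN hK
    · right
      rw [orbit_W N K hN hK K le_rfl]
      exact It_ne_univ N K hN hK

/-- For order `m ≥ 3` every `k` with `1 ≤ k ≤ (n - 1) ^ 2` belongs to `R_j(m, n)`. -/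
theorem mem_R_of_le_sq {m n : ℕ} (hm : 3 ≤ m) (hn : 2 ≤ n) (j : Fin n) {k : ℕ} (hk1 : 1 ≤ k)
    (hk : k ≤ (n - 1) ^ 2) : k ∈ R m n j := by
  obtain ⟨N, rfl⟩ : ∃ N, n = N + 1 := ⟨n - 1, by omega⟩
  obtain ⟨K, rfl⟩ : ∃ K, k = K + 1 := ⟨k - 1, by omega⟩
  rw [R_indep j 0]
  apply R_mono_order (m := 3) (by norm_num) hm
  exact succ_mem_R3 N K (by omega) (by simpa using hk)

end Pool.Agent.H43.Gaps
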