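import Mathlib
import Pool.Agent.H43.Gaps.Wiel

/-!
# Order `m ≥ 3`: exponentially long initial segments (a counter with carry delays)
-/

set_option autoImplicit false

namespace Pool.Agent.H43.Gaps

/-- next state of a digit `d ≤ r` (`r` means: digit `0` and a carry is emitted) when the previous
stage is in state `e`. -/
def nxt (r d e : ℕ) : ℕ :=
  if e = r then (if d = r then 1 else if d + 1 = r then r else d + 1)
  else (if d = r then 0 else d)

/-- state of stage `i` at time `t` -/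
def Dg (r i t : ℕ) : ℕ :=
  if r ^ (i + 1) ∣ t + 1 - i ∧ i < t + 1 then r else ((t + 1 - i) / r ^ i) % r

theorem Dg_le {r : ℕ} (hr : 2 ≤ r) (i t : ℕ) : Dg r i t ≤ r := by
  unfold Dg
  split_ifs
  · exact le_rfl
  · exact (Nat.mod_lt _ (by omega)).le

theorem Dg_eq_iff {r : ℕ} (hr : 2 ≤ r) (i t : ℕ) :
    Dg r i t = r ↔ r ^ (i + 1) ∣ t + 1 - i ∧ i < t + 1 := by
  unfold Dg
  split_ifs with h
  · exact ⟨fun _ => h, fun _ => rfl⟩
  · have := Nat.mod_lt ((t + 1 - i) / r ^ i) (show 0 < r by omega)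
    exact ⟨fun h' => by omega, fun h' => absurd h' h⟩

theorem div_succ_of_not_dvd {M u : ℕ} (h : ¬ M ∣ u + 1) : (u + 1) / M = u / M := by
  rw [Nat.succ_div, if_neg h, add_zero]

theorem div_succ_of_dvd {M u : ℕ} (h : M ∣ u + 1) : (u + 1) / M = u / M + 1 := by
  rw [Nat.succ_div, if_pos h]

theorem Dg_zero_succ {r : ℕ} (hr : 2 ≤ r) (t : ℕ) : Dg r 0 (t + 1) = nxt r (Dg r 0 t) r := by
  have h1 := Nat.mod_lt (t + 1) (show 0 < r by omega)
  have h2 : (t + 2) % r = if (t + 1) % r + 1 = r then 0 else (t + 1) % r + 1 := by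
    rw [show t + 2 = (t + 1) + 1 from rfl, Nat.add_mod]
    rw [Nat.mod_eq_of_lt (show 1 < r by omega)]
    split_ifs with h
    · rw [h, Nat.mod_self]
    · rw [Nat.mod_eq_of_lt (by omega)]
  unfold Dg nxt
  simp only [zero_add, pow_one, Nat.sub_zero, pow_zero, Nat.div_one, if_true]
  have h3 : r ∣ t + 1 ↔ (t + 1) % r = 0 := Nat.dvd_iff_mod_eq_zero
  have h4 : r ∣ t + 1 + 1 ↔ (t + 2) % r = 0 := Nat.dvd_iff_mod_eq_zero
  have h5 : 0 < t + 1 := by omega
  have h6 : 0 < t + 1 + 1 := by omega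
  simp only [h3, h4, h5, h6, and_true]
  rw [show t + 1 + 1 = t + 2 from rfl, h2]
  by_cases h7 : (t + 1) % r + 1 = r
  · have h8 : ¬ (t + 1) % r = 0 := by omega
    have h9 : ¬ (t + 1) % r = r := by omega
    simp [h7, h8, h9]
  · by_cases h8 : (t + 1) % r = 0
    · have h9 : ¬ (0 + 1 = r) := by omega
      simp only [h8, if_true]
      rw [if_neg h9, if_neg (by omega)]
    · have h9 : ¬ (t + 1) % r = r := by omega
      simp [h7, h8, h9]

theorem Dg_succ_succ {r : ℕ} (hr : 2 ≤ r) (i t : ℕ) :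
    Dg r (i + 1) (t + 1) = nxt r (Dg r (i + 1) t) (Dg r i t) := by
  rcases Nat.lt_or_ge t i with hti | hti
  · have e1 : Dg r (i + 1) (t + 1) = 0 := by
      unfold Dg
      rw [if_neg (by omega), show t + 1 + 1 - (i + 1) = 0 by omega]
      simp
    have e2 : Dg r (i + 1) t = 0 := by
      unfold Dg
      rw [if_neg (by omega), show t + 1 - (i + 1) = 0 by omega]
      simp
    have e3 : Dg r i t = 0 := by
      unfold Dg
      rw [if_neg (by omega), show t + 1 - i = 0 by omega]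
      simp
    rw [e1, e2, e3]
    unfold nxt
    rw [if_neg (by omega), if_neg (by omega)]
  · obtain ⟨u, rfl⟩ := Nat.exists_eq_add_of_le hti
    have hM2 : 2 ≤ r ^ (i + 1) := by
      calc 2 ≤ r := hr
        _ = r ^ 1 := (pow_one r).symm
        _ ≤ r ^ (i + 1) := Nat.pow_le_pow_right (by omega) (by omega)
    set M := r ^ (i + 1) with hM
    have hMr : r ^ (i + 1 + 1) = M * r := by rw [pow_succ]
    have a1 : Dg r (i + 1) (i + u + 1) =
        if M * r ∣ u + 1 then r else ((u + 1) / M) % r := by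
      unfold Dg
      rw [hMr, show i + u + 1 + 1 - (i + 1) = u + 1 by omega]
      have : i + 1 < i + u + 1 + 1 := by omega
      simp only [this, and_true]
      rfl
    have a2 : Dg r (i + 1) (i + u) = if M * r ∣ u ∧ 0 < u then r else (u / M) % r := by
      unfold Dg
      rw [hMr, show i + u + 1 - (i + 1) = u by omega]
      have : (i + 1 < i + u + 1) ↔ 0 < u := by omega
      simp only [this]
      rfl
    have a3 : Dg r i (i + u) = r ↔ M ∣ u + 1 := by
      rw [Dg_eq_iff hr, show i + u + 1 - i = u + 1 by omega]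
      have : i < i + u + 1 := by omega
      simp only [this, and_true]
      rfl
    have hδ := Nat.mod_lt (u / M) (show 0 < r by omega)
    by_cases h : M ∣ u + 1
    · have h0 : Dg r i (i + u) = r := a3.2 h
      have hnM : ¬ M ∣ u := by
        intro h'
        have := (Nat.dvd_add_right h').1 h
        have := Nat.le_of_dvd one_pos this
        omega
      have h1 : ¬ (M * r ∣ u ∧ 0 < u) := fun h' => hnM ((Dvd.intro _ rfl).trans h'.1)
      have h2 : M * r ∣ u + 1 ↔ (u / M) % r + 1 = r := by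
        have h3 : u + 1 = M * (u / M + 1) := by
          rw [← div_succ_of_dvd h, Nat.mul_div_cancel' h]
        rw [h3, Nat.mul_dvd_mul_iff_left (by omega), Nat.dvd_iff_mod_eq_zero, Nat.add_mod,
          Nat.mod_eq_of_lt (show 1 < r by omega)]
        constructor
        · intro h4
          by_contra hcon
          rw [Nat.mod_eq_of_lt (by omega)] at h4
          omega
        · intro h4
          rw [h4, Nat.mod_self]
      have h9 : ¬ (u / M) % r = r := by omega
      rw [a1, a2, h0, if_neg h1, div_succ_of_dvd h]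
      unfold nxt
      rw [if_pos rfl, if_neg h9]
      by_cases h5 : (u / M) % r + 1 = r
      · rw [if_pos h5, if_pos (h2.2 h5)]
      · rw [if_neg h5, if_neg (fun h' => h5 (h2.1 h')), Nat.add_mod,
          Nat.mod_eq_of_lt (show 1 < r by omega), Nat.mod_eq_of_lt (by omega)]
    · have h0 : Dg r i (i + u) ≠ r := fun h' => h (a3.1 h')
      have h1 : ¬ M * r ∣ u + 1 := fun h' => h ((Dvd.intro _ rfl).trans h')
      rw [a1, a2, if_neg h1, div_succ_of_not_dvd h]
      unfold nxt
      rw [if_neg h0]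
      by_cases h2 : M * r ∣ u ∧ 0 < u
      · rw [if_pos h2, if_pos rfl]
        obtain ⟨q, hq⟩ := h2.1
        rw [hq, mul_assoc, Nat.mul_div_cancel_left _ (by omega : 0 < M), Nat.mul_mod_right]
      · rw [if_neg h2, if_neg (by omega)]

/-! ### The network -/

/-- The rules (`u` from `v` and `w`). -/
def PC (n r k t0 : ℕ) (u v w : Fin n) : Prop :=
  (∃ i d e, i + 1 < k ∧ d ≤ r ∧ e ≤ r ∧ v.val = (i + 1) * (r + 1) + d ∧
    w.val = i * (r + 1) + e ∧ u.val = (i + 1) * (r + 1) + nxt r d e) ∨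
  (∃ d, d ≤ r ∧ v.val = d ∧ u.val = nxt r d r) ∨
  v.val = (k - 1) * (r + 1) + r ∨
  (v.val = k * (r + 1) ∧ ∃ i, i < k ∧ u.val = i * (r + 1) + Dg r i t0)

/-- state at time `t` -/
def St (n r k t : ℕ) : Set (Fin n) := {u | ∃ i, i < k ∧ u.val = i * (r + 1) + Dg r i t}

theorem pair_inj {r i i' d d' : ℕ} (hd : d ≤ r) (hd' : d' ≤ r)
    (h : i * (r + 1) + d = i' * (r + 1) + d') : i = i' ∧ d = d' := by
  have h1 : (i * (r + 1) + d) / (r + 1) = i := by
    rw [Nat.mul_comm, Nat.mul_add_div (by omega), Nat.div_eq_of_lt (by omega), add_zero]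
  have h2 : (i' * (r + 1) + d') / (r + 1) = i' := by
    rw [Nat.mul_comm, Nat.mul_add_div (by omega), Nat.div_eq_of_lt (by omega), add_zero]
  have h3 : i = i' := by rw [← h1, ← h2, h]
  subst h3
  exact ⟨rfl, by omega⟩

theorem pair_lt {r i k d : ℕ} (hd : d ≤ r) (hi : i < k) : i * (r + 1) + d < k * (r + 1) := by
  have : (i + 1) * (r + 1) ≤ k * (r + 1) := Nat.mul_le_mul_right _ hi
  rw [add_mul] at this
  omega

theorem nxt_le {r d e : ℕ} (hr : 2 ≤ r) (hd : d ≤ r) : nxt r d e ≤ r := by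
  unfold nxt; split_ifs <;> omega

theorem next_St {n r k t0 t : ℕ} (hr : 2 ≤ r) (hn : k * (r + 1) < n)
    (ht : Dg r (k - 1) t ≠ r) :
    next (arr3 (PC n r k t0)) (St n r k t) = St n r k (t + 1) := by
  ext u
  rw [mem_next_arr3]
  constructor
  · rintro ⟨v, ⟨i1, hi1, hv⟩, w, ⟨i2, hi2, hw⟩, h | h | h | h⟩
    · obtain ⟨i, d, e, hi, hd, he, hv', hw', hu⟩ := h
      rw [hv] at hv'
      rw [hw] at hw'
      obtain ⟨e1, e2⟩ := pair_inj (Dg_le hr _ _) hd hv'
      obtain ⟨e3, e4⟩ := pair_inj (Dg_le hr _ _) he hw'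
      subst e1
      subst e3
      exact ⟨i2 + 1, hi, by rw [hu, Dg_succ_succ hr, e2, e4]⟩
    · obtain ⟨d, hd, hv', hu⟩ := h
      rw [hv] at hv'
      obtain ⟨e1, e2⟩ := pair_inj (i' := 0) (Dg_le hr _ _) hd (by rw [hv']; omega)
      subst e1
      exact ⟨0, by omega, by rw [hu, Dg_zero_succ hr, e2]; omega⟩
    · exfalso
      rw [hv] at h
      obtain ⟨e1, e2⟩ := pair_inj (Dg_le hr _ _) le_rfl h
      subst e1
      exact ht e2
    · exfalso
      have := pair_lt (Dg_le hr i1 t) hi1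
      omega
  · rintro ⟨i, hi, hu⟩
    rcases Nat.eq_zero_or_pos i with h0 | h0
    · subst h0
      have hlt := pair_lt (Dg_le hr 0 t) hi
      have hmem : (⟨0 * (r + 1) + Dg r 0 t, by omega⟩ : Fin n) ∈ St n r k t :=
        ⟨0, hi, rfl⟩
      refine ⟨_, hmem, _, hmem, Or.inr (Or.inl ⟨Dg r 0 t, Dg_le hr _ _, ?_, ?_⟩)⟩
      · simp
      · rw [hu, Dg_zero_succ hr]; omega
    · obtain ⟨i, rfl⟩ : ∃ i', i = i' + 1 := ⟨i - 1, by omega⟩
      have hlt := pair_lt (Dg_le hr (i + 1) t) hi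
      have hlt' := pair_lt (Dg_le hr i t) (show i < k by omega)
      refine ⟨⟨(i + 1) * (r + 1) + Dg r (i + 1) t, by omega⟩, ⟨i + 1, hi, rfl⟩,
        ⟨i * (r + 1) + Dg r i t, by omega⟩, ⟨i, by omega, rfl⟩, Or.inl
        ⟨i, Dg r (i + 1) t, Dg r i t, hi, Dg_le hr _ _, Dg_le hr _ _, rfl, rfl, ?_⟩⟩
      rw [hu, Dg_succ_succ hr]

theorem next_St_last {n r k t0 t : ℕ} (hr : 2 ≤ r) (hk : 2 ≤ k) (hn : k * (r + 1) < n)
    (ht : Dg r (k - 1) t = r) :
    next (arr3 (PC n r k t0)) (St n r k t) = Set.univ := by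
  apply Set.eq_univ_of_forall
  intro u
  rw [mem_next_arr3]
  have hlt := pair_lt (Dg_le hr (k - 1) t) (show k - 1 < k by omega)
  have hmem : (⟨(k - 1) * (r + 1) + Dg r (k - 1) t, by omega⟩ : Fin n) ∈ St n r k t :=
    ⟨k - 1, by omega, rfl⟩
  refine ⟨_, hmem, _, hmem, Or.inr (Or.inr (Or.inl ?_))⟩
  simp only [ht]

theorem St_ne_univ {n r k t : ℕ} (hr : 2 ≤ r) (hn : k * (r + 1) < n) :
    St n r k t ≠ Set.univ := by
  intro h
  have : (⟨k * (r + 1), hn⟩ : Fin n) ∈ St n r k t := by rw [h]; trivial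
  obtain ⟨i, hi, h1⟩ := this
  have := pair_lt (Dg_le hr i t) hi
  simp only at h1
  omega

/-- first firing time of the last stage -/
theorem Dg_last {r k t : ℕ} (hr : 2 ≤ r) (hk : 2 ≤ k) :
    (t + 2 < r ^ k + k → Dg r (k - 1) t ≠ r) ∧ (t + 2 = r ^ k + k → Dg r (k - 1) t = r) := by
  obtain ⟨l, rfl⟩ : ∃ l, k = l + 1 := ⟨k - 1, by omega⟩
  rw [show l + 1 - 1 = l from rfl]
  constructor
  · intro h h'
    obtain ⟨h1, h2⟩ := (Dg_eq_iff hr _ _).1 h'
    have := Nat.le_of_dvd (by omega) h1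
    omega
  · intro h
    rw [Dg_eq_iff hr]
    have hpos : 0 < r ^ (l + 1) := Nat.pow_pos (by omega)
    rw [show t + 1 - l = r ^ (l + 1) by omega]
    exact ⟨dvd_rfl, by omega⟩

theorem mem_R_counter {n r k g : ℕ} (hr : 2 ≤ r) (hk : 2 ≤ k) (hn : k * (r + 1) < n)
    (j : Fin n) (hg2 : 2 ≤ g) (hg : g ≤ r ^ k + k) : g ∈ R 3 n j := by
  rw [R_indep j ⟨k * (r + 1), hn⟩]
  obtain ⟨t0, ht0⟩ : ∃ t0, t0 + g = r ^ k + k := ⟨r ^ k + k - g, by omega⟩
  obtain ⟨s, rfl⟩ : ∃ s, g = s + 2 := ⟨g - 2, by omega⟩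
  set P := PC n r k t0 with hP
  have horb : ∀ c ≤ s, S (arr3 P) ⟨k * (r + 1), hn⟩ (c + 1) = St n r k (t0 + c) := by
    intro c hc
    induction c with
    | zero =>
      show next _ {_} = _
      ext u
      rw [mem_next_arr3]
      constructor
      · rintro ⟨v, rfl, w, rfl, h | h | h | h⟩
        · obtain ⟨i, d, e, hi, hd, he, hv', -, -⟩ := h
          have := pair_lt hd hi
          simp only at hv'
          omega
        · obtain ⟨d, hd, hv', -⟩ := h
          simp only at hv'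
          have : 2 * (r + 1) ≤ k * (r + 1) := Nat.mul_le_mul_right _ hk
          omega
        · simp only at h
          have := pair_lt (le_refl r) (show k - 1 < k by omega)
          omega
        · exact h.2
      · intro h
        exact ⟨_, rfl, _, rfl, Or.inr (Or.inr (Or.inr ⟨rfl, h⟩))⟩
    | succ c ih =>
      show next _ (S (arr3 P) _ (c + 1)) = _
      rw [ih (by omega)]
      exact next_St hr hn ((Dg_last hr hk).1 (by omega))
  refine ⟨arr3 P, arr3_nonneg _, ?_, ?_⟩
  · -- the vertex `(1, 0)` is dead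
    intro h
    have hlt : (r + 1) < n := by
      have : 2 * (r + 1) ≤ k * (r + 1) := Nat.mul_le_mul_right _ hk
      omega
    obtain ⟨l, hl1, hl⟩ := h ⟨r + 1, hlt⟩
    have h1 : S (arr3 P) ⟨r + 1, hlt⟩ 1 = ∅ := by
      show next _ {_} = ∅
      ext u
      rw [mem_next_arr3]
      simp only [Set.mem_singleton_iff, Set.mem_empty_iff_false, iff_false]
      rintro ⟨v, rfl, w, rfl, h | h | h | h⟩
      · obtain ⟨i, d, e, hi, hd, he, hv', hw', -⟩ := h
        simp only at hv' hw'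
        have h5 := pair_inj (i := i) (i' := i + 1) he hd (by rw [← hw', ← hv'])
        omega
      · obtain ⟨d, hd, hv', -⟩ := h
        simp only at hv'
        omega
      · simp only at h
        have h5 := pair_inj (i := 1) (i' := k - 1) (d := 0) (by omega) (le_refl r) (by omega)
        omega
      · have h6 := h.1
        simp only at h6
        have : 2 * (r + 1) ≤ k * (r + 1) := Nat.mul_le_mul_right _ hk
        omega
    have h2 : ∀ d, S (arr3 P) ⟨r + 1, hlt⟩ (1 + d) = ∅ := by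
      intro d
      induction d with
      | zero => exact h1
      | succ d ih =>
        show next _ (S (arr3 P) ⟨r + 1, hlt⟩ (1 + d)) = ∅
        rw [ih]
        ext u
        rw [mem_next_arr3]
        simp
    obtain ⟨d, rfl⟩ := Nat.exists_eq_add_of_le hl1
    rw [h2 d] at hl
    have : (⟨r + 1, hlt⟩ : Fin n) ∈ (∅ : Set (Fin n)) := by rw [hl]; trivial
    exact this
  · apply isLeast_of (g := s + 1)
    · show next _ (S (arr3 P) _ (s + 1)) = _
      rw [horb s le_rfl]
      exact next_St_last hr hk hn ((Dg_last hr hk).2 (by omega))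
    · right
      rw [horb s le_rfl]
      exact St_ne_univ hr hn

end Pool.Agent.H43.Gaps
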