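import Mathlib
import Pool.Agent.H43.Gaps.Counter

/-!
# Order `m ≥ 3`: initial segments from antichains, and the final initial segment
-/

set_option autoImplicit false

namespace Pool.Agent.H43.Gaps

variable {m n : ℕ}

/-- a surjection from the nonzero coordinates onto a small nonempty set -/
theorem exists_enum (hm : 2 ≤ m) (T : Finset (Fin n)) (hT : T.Nonempty) (hc : T.card ≤ m - 1)
    (u : Fin n) : ∃ i : Fin m → Fin n, (∀ l : Fin m, l.val = 0 → i l = u) ∧
      (∀ l : Fin m, l.val ≠ 0 → i l ∈ T) ∧ ∀ x ∈ T, ∃ l : Fin m, l.val ≠ 0 ∧ i l = x := by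
  obtain ⟨x0, hx0⟩ := hT
  set q := T.card with hq
  let e := T.equivFin
  refine ⟨fun l => if l.val = 0 then u else
    if h : l.val - 1 < q then (e.symm ⟨l.val - 1, h⟩ : Fin n) else x0, ?_, ?_, ?_⟩
  · intro l hl; simp [hl]
  · intro l hl
    simp only [hl, if_false]
    split_ifs with h
    · exact (e.symm ⟨l.val - 1, h⟩).2
    · exact hx0
  · intro x hx
    have hlt := (e ⟨x, hx⟩).2
    refine ⟨⟨(e ⟨x, hx⟩).val + 1, by omega⟩, by simp, ?_⟩
    have h5 : (e ⟨x, hx⟩).val < q := hlt
    simp [h5]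

theorem mem_R_choose (hm : 3 ≤ m) (j : Fin n) {t g : ℕ} (ht : 2 ≤ t) (htm : t ≤ m - 1)
    (hg2 : 2 ≤ g) (hg : g ≤ (n - 1).choose t + 1) : g ∈ R m n j := by
  classical
  set F := Finset.powersetCard t (Finset.univ.erase j) with hF
  have hcard : F.card = (n - 1).choose t := by
    rw [hF, Finset.card_powersetCard, Finset.card_erase_of_mem (Finset.mem_univ j),
      Finset.card_univ, Fintype.card_fin]
  let e := F.equivFin
  obtain ⟨s, rfl⟩ : ∃ s, g = s + 2 := ⟨g - 2, by omega⟩
  -- the sets
  let T : ℕ → Finset (Fin n) := fun c => if h : c < F.card then (e.symm ⟨c, h⟩ : Finset (Fin n))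
    else ∅
  have hTF : ∀ c, c ≤ s → T c ∈ F := by
    intro c hc
    have h : c < F.card := by omega
    simp only [T, h, dif_pos]
    exact (e.symm ⟨c, h⟩).2
  have hTc : ∀ c, c ≤ s → (T c).card = t := fun c hc =>
    (Finset.mem_powersetCard.1 (hTF c hc)).2
  have hTj : ∀ c, c ≤ s → j ∉ T c := fun c hc hj =>
    (Finset.mem_erase.1 ((Finset.mem_powersetCard.1 (hTF c hc)).1 hj)).1 rfl
  have hTinj : ∀ c c', c ≤ s → c' ≤ s → T c = T c' → c = c' := by
    intro c c' hc hc' h
    have h1 : c < F.card := by omega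
    have h2 : c' < F.card := by omega
    simp only [T, h1, h2, dif_pos] at h
    have h3 := e.symm.injective (Subtype.ext h)
    simpa using h3
  -- the array
  let A : (Fin m → Fin n) → ℝ := fun i =>
    if ((∀ l : Fin m, l.val ≠ 0 → i l = j) ∧ ∀ l : Fin m, l.val = 0 → i l ∈ T 0) ∨
      ∃ c ≤ s, (∀ x, x ∈ T c ↔ ∃ l : Fin m, l.val ≠ 0 ∧ i l = x) ∧
        (c < s → ∀ l : Fin m, l.val = 0 → i l ∈ T (c + 1)) then 1 else 0
  have hApos : ∀ i, 0 < A i ↔ (((∀ l : Fin m, l.val ≠ 0 → i l = j) ∧
      ∀ l : Fin m, l.val = 0 → i l ∈ T 0) ∨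
      ∃ c ≤ s, (∀ x, x ∈ T c ↔ ∃ l : Fin m, l.val ≠ 0 ∧ i l = x) ∧
        (c < s → ∀ l : Fin m, l.val = 0 → i l ∈ T (c + 1))) := by
    intro i
    simp only [A]
    split_ifs with h
    · simp [h]
    · simp [h]
  have hm0 : 0 < m := by omega
  have hm1 : 1 < m := by omega
  -- first step
  have hfirst : next A {j} = (T 0 : Set (Fin n)) := by
    ext u
    constructor
    · rintro ⟨i, h0, h1, h2⟩
      rcases (hApos i).1 h2 with ⟨-, h4⟩ | ⟨c, hc, h3, -⟩
      · rw [← h0 ⟨0, hm0⟩ rfl]; exact h4 ⟨0, hm0⟩ rfl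
      · exfalso
        have h5 : j ∈ T c := (h3 j).2 ⟨⟨1, hm1⟩, by simp, h1 ⟨1, hm1⟩ (by simp)⟩
        exact hTj c hc h5
    · intro hu
      refine ⟨fun l => if l.val = 0 then u else j, ?_, ?_, ?_⟩
      · intro l hl; simp [hl]
      · intro l hl; simp [hl]
      · rw [hApos]
        left
        constructor
        · intro l hl; simp [hl]
        · intro l hl; simp only [hl, if_true]; exact hu
  -- middle and last steps
  have hstep : ∀ c ≤ s, ∀ u, u ∈ next A (T c : Set (Fin n)) ↔ (c < s → u ∈ T (c + 1)) := by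
    intro c hc u
    constructor
    · rintro ⟨i, h0, h1, h2⟩ hcs
      rcases (hApos i).1 h2 with ⟨h4, -⟩ | ⟨c', hc', h3, h4⟩
      · exfalso
        have h5 := h4 ⟨1, hm1⟩ (by simp)
        have h6 := h1 ⟨1, hm1⟩ (by simp)
        rw [h5] at h6
        exact hTj c hc h6
      · have hsub : T c' ⊆ T c := by
          intro x hx
          obtain ⟨l, hl, rfl⟩ := (h3 x).1 hx
          exact h1 l hl
        have heq := Finset.eq_of_subset_of_card_le hsub (by rw [hTc c hc, hTc c' hc'])
        have := hTinj c' c hc' hc heq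
        subst this
        rw [← h0 ⟨0, hm0⟩ rfl]
        exact h4 hcs ⟨0, hm0⟩ rfl
    · intro hu
      have hne : (T c).Nonempty := by
        rw [← Finset.card_pos, hTc c hc]; omega
      obtain ⟨i, h0, h1, h2⟩ := exists_enum (m := m) (by omega) (T c) hne
        (by rw [hTc c hc]; exact htm) u
      refine ⟨i, h0, h1, ?_⟩
      rw [hApos]
      right
      refine ⟨c, hc, ?_, ?_⟩
      · intro x
        constructor
        · exact h2 x
        · rintro ⟨l, hl, rfl⟩; exact h1 l hl
      · intro hcs l hl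
        rw [h0 l hl]
        exact hu hcs
  have horb : ∀ c ≤ s, S A j (c + 1) = (T c : Set (Fin n)) := by
    intro c hc
    induction c with
    | zero => exact hfirst
    | succ c ih =>
      show next A (S A j (c + 1)) = _
      rw [ih (by omega)]
      ext u
      rw [hstep c (by omega)]
      exact ⟨fun h => h (by omega), fun h _ => h⟩
  refine ⟨A, fun i => by simp only [A]; split_ifs <;> norm_num, ?_, ?_⟩
  · intro h
    -- a vertex different from `j`
    have hne : (T 0).Nonempty := by
      rw [← Finset.card_pos, hTc 0 (by omega)]; omega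
    obtain ⟨w, hw⟩ := hne
    have hwj : w ≠ j := fun h' => hTj 0 (by omega) (h' ▸ hw)
    obtain ⟨k, hk1, hk⟩ := h w
    have h1 : S A w 1 = ∅ := by
      show next A {w} = ∅
      ext u
      simp only [Set.mem_empty_iff_false, iff_false]
      rintro ⟨i, h0, h1, h2⟩
      rcases (hApos i).1 h2 with ⟨h4, -⟩ | ⟨c', hc', h3, h4⟩
      · have h5 := h4 ⟨1, hm1⟩ (by simp)
        have h6 : i ⟨1, hm1⟩ = w := h1 ⟨1, hm1⟩ (by simp)
        exact hwj (h6.symm.trans h5)
      · have hsub : T c' ⊆ {w} := by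
          intro x hx
          obtain ⟨l, hl, rfl⟩ := (h3 x).1 hx
          rw [Finset.mem_singleton]
          exact h1 l hl
        have := Finset.card_le_card hsub
        rw [hTc c' hc', Finset.card_singleton] at this
        omega
    have h2 : ∀ d, S A w (1 + d) = ∅ := by
      intro d
      induction d with
      | zero => exact h1
      | succ d ih =>
        show next A (S A w (1 + d)) = ∅
        rw [ih]
        ext u
        simp only [Set.mem_empty_iff_false, iff_false]
        rintro ⟨i, -, h1, -⟩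
        exact h1 ⟨1, hm1⟩ (by simp)
    obtain ⟨d, rfl⟩ := Nat.exists_eq_add_of_le hk1
    rw [h2 d] at hk
    have : w ∈ (∅ : Set (Fin n)) := by rw [hk]; trivial
    exact this
  · apply isLeast_of (g := s + 1)
    · show next A (S A j (s + 1)) = _
      rw [horb s le_rfl]
      apply Set.eq_univ_of_forall
      intro u
      rw [hstep s le_rfl]
      intro h; omega
    · right
      rw [horb s le_rfl]
      intro h
      have : j ∈ (T s : Set (Fin n)) := by rw [h]; trivial
      exact hTj s le_rfl this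

/-- The final initial segment. -/
theorem mem_R_initial (hm : 3 ≤ m) (hn : 2 ≤ n) (j : Fin n) {k : ℕ} (hk1 : 1 ≤ k)
    (hk : k ≤ (n - 1) ^ 2 ∨ k ≤ 4 ^ ((n - 1) / 5) ∨
      ∃ t, 2 ≤ t ∧ t ≤ m - 1 ∧ k ≤ (n - 1).choose t + 1) : k ∈ R m n j := by
  rcases Nat.lt_or_ge 1 k with hk2 | hk2
  · rcases hk with hk | hk | ⟨t, ht, htm, hk⟩
    · exact mem_R_of_le_sq hm hn j hk1 hk
    · apply R_mono_order (m := 3) (by norm_num) hm
      set q := (n - 1) / 5 with hq
      rcases Nat.lt_or_ge q 2 with h | h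
      · have h1 : 4 ^ q ≤ 4 := by
          calc 4 ^ q ≤ 4 ^ 1 := Nat.pow_le_pow_right (by norm_num) (by omega)
            _ = 4 := by norm_num
        -- `k ≤ 4`, so `q = 1` and `n ≥ 6`
        have h2 : q = 1 := by
          rcases Nat.eq_zero_or_pos q with h3 | h3
          · rw [h3] at hk; simp at hk; omega
          · omega
        have h3 : 6 ≤ n := by omega
        apply mem_R_of_le_sq le_rfl hn j hk1
        have h4 : 5 ^ 2 ≤ (n - 1) ^ 2 := Nat.pow_le_pow_left (by omega) 2
        omega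
      · apply mem_R_counter (r := 4) (k := q) (by norm_num) h (by omega) j (by omega)
        omega
    · exact mem_R_choose hm j ht htm (by omega) hk
  · apply mem_R_of_le_sq hm hn j hk1
    have h4 : 1 ^ 2 ≤ (n - 1) ^ 2 := Nat.pow_le_pow_left (by omega) 2
    omega

end Pool.Agent.H43.Gaps
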