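import Mathlib
import Pool.Agent.H43.Gaps.Defs

/-!
# Order `2`: the constructions
-/

set_option autoImplicit false

namespace Pool.Agent.H43.Gaps

variable {n : ℕ}

open Classical in
/-- The order `2` array of a binary relation. -/
noncomputable def arr2 (E : Fin n → Fin n → Prop) : (Fin 2 → Fin n) → ℝ :=
  fun i => if E (i 0) (i 1) then 1 else 0

theorem arr2_nonneg (E : Fin n → Fin n → Prop) (i : Fin 2 → Fin n) : 0 ≤ arr2 E i := by
  unfold arr2; split_ifs <;> norm_num

theorem arr2_pos (E : Fin n → Fin n → Prop) (i : Fin 2 → Fin n) :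
    0 < arr2 E i ↔ E (i 0) (i 1) := by
  unfold arr2
  split_ifs with h
  · simp [h]
  · simp [h]

theorem mem_next_arr2 (E : Fin n → Fin n → Prop) (X : Set (Fin n)) (u : Fin n) :
    u ∈ next (arr2 E) X ↔ ∃ v ∈ X, E u v := by
  constructor
  · rintro ⟨i, h0, h1, h2⟩
    rw [arr2_pos] at h2
    refine ⟨i 1, h1 1 (by decide), ?_⟩
    rw [← h0 0 rfl]
    exact h2
  · rintro ⟨v, hv, h⟩
    refine ⟨![u, v], ?_, ?_, ?_⟩
    · intro l hl
      have : l = 0 := Fin.ext hl
      subst this; rfl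
    · intro l hl
      fin_cases l
      · exact absurd rfl hl
      · exact hv
    · rw [arr2_pos]
      exact h

/-- `arr2` of a relation with a dead vertex is not primitive. -/
theorem not_primitive_arr2 (E : Fin n → Fin n → Prop) (w : Fin n) (hw : ∀ u, ¬ E u w) :
    ¬ Primitive (arr2 E) := by
  intro h
  obtain ⟨k, hk1, hk⟩ := h w
  have h1 : S (arr2 E) w 1 = ∅ := by
    show next _ {w} = ∅
    ext u
    rw [mem_next_arr2]
    simp only [Set.mem_singleton_iff, Set.mem_empty_iff_false, iff_false]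
    rintro ⟨v, rfl, h⟩
    exact hw u h
  have h2 : ∀ d, S (arr2 E) w (1 + d) = ∅ := by
    intro d
    induction d with
    | zero => exact h1
    | succ d ih =>
      show next _ (S (arr2 E) w (1 + d)) = ∅
      rw [ih]
      ext u
      rw [mem_next_arr2]
      simp
  obtain ⟨d, rfl⟩ := Nat.exists_eq_add_of_le hk1
  rw [h2 d] at hk
  have : w ∈ (∅ : Set (Fin n)) := by rw [hk]; trivial
  exact this

/-! ### Numerical semigroups -/

theorem rep_of_ge {s l x : ℕ} (h : Nat.Coprime s l) (hx : (s - 1) * (l - 1) ≤ x) :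
    ∃ a b, x = a * s + b * l := by
  obtain ⟨a, b, hab⟩ := Nat.exists_add_mul_eq_of_gcd_dvd_of_mul_pred_le s l x
    (by rw [h.gcd_eq_one]; exact one_dvd _) (by simpa using hx)
  exact ⟨a, b, hab.symm⟩

theorem not_rep {s l : ℕ} (h : Nat.Coprime s l) (hs : 1 ≤ s) (hl : 1 ≤ l) (a b : ℕ) :
    (s - 1) * (l - 1) ≠ 1 + (a * s + b * l) := by
  intro hab
  obtain ⟨s, rfl⟩ : ∃ s', s = s' + 1 := ⟨s - 1, by omega⟩
  obtain ⟨l, rfl⟩ : ∃ l', l = l' + 1 := ⟨l - 1, by omega⟩
  simp only [Nat.add_sub_cancel] at hab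
  apply h.mul_add_mul_ne_mul (Nat.succ_ne_zero a) (Nat.succ_ne_zero b)
  simp only [Nat.succ_eq_add_one]
  nlinarith

/-! ### The path with two back arcs -/

/-- arcs `v → v + 1`, `l - 1 → 0` and `s - 1 → 0` (written head first). -/
def E1 (n l s : ℕ) (u v : Fin n) : Prop :=
  u.val = v.val + 1 ∨ (u.val = 0 ∧ (v.val + 1 = l ∨ v.val + 1 = s))

def C1 (n l s i k : ℕ) : Set (Fin n) := {v | ∃ a b, k + i = v.val + (a * s + b * l)}

theorem next_C1 {n l s i k : ℕ} (hs : 1 ≤ s) (hsl : s < l) (hl : l < n) :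
    next (arr2 (E1 n l s)) (C1 n l s i k) = C1 n l s i (k + 1) := by
  ext u
  rw [mem_next_arr2]
  constructor
  · rintro ⟨v, ⟨a, b, hab⟩, h | ⟨h0, h | h⟩⟩
    · exact ⟨a, b, by omega⟩
    · refine ⟨a, b + 1, ?_⟩
      rw [add_mul b]; omega
    · refine ⟨a + 1, b, ?_⟩
      rw [add_mul a]; omega
  · rintro ⟨a, b, hab⟩
    have hu := u.2
    rcases Nat.eq_zero_or_pos u.val with h0 | h0
    · rcases Nat.eq_zero_or_pos b with hb | hb
      · rcases Nat.eq_zero_or_pos a with ha | ha
        · subst ha; subst hb; omega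
        · obtain ⟨a, rfl⟩ : ∃ a', a = a' + 1 := ⟨a - 1, by omega⟩
          rw [add_mul a] at hab
          refine ⟨⟨s - 1, by omega⟩, ⟨a, b, ?_⟩, Or.inr ⟨h0, Or.inr ?_⟩⟩
          · simp only; omega
          · simp only; omega
      · obtain ⟨b, rfl⟩ : ∃ b', b = b' + 1 := ⟨b - 1, by omega⟩
        rw [add_mul b] at hab
        refine ⟨⟨l - 1, by omega⟩, ⟨a, b, ?_⟩, Or.inr ⟨h0, Or.inl ?_⟩⟩
        · simp only; omega
        · simp only; omega
    · refine ⟨⟨u.val - 1, by omega⟩, ⟨a, b, ?_⟩, Or.inl ?_⟩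
      · simp only; omega
      · simp only; omega

theorem orbit_C1 {n l s : ℕ} (hs : 1 ≤ s) (hsl : s < l) (hl : l < n) (i : Fin n) (hi : i.val < s)
    (k : ℕ) : S (arr2 (E1 n l s)) i k = C1 n l s i.val k := by
  induction k with
  | zero =>
    ext v
    simp only [S, Set.mem_singleton_iff, C1, Set.mem_ofPred_eq]
    constructor
    · rintro rfl; exact ⟨0, 0, by simp⟩
    · rintro ⟨a, b, hab⟩
      ext
      rcases Nat.eq_zero_or_pos b with hb | hb
      · rcases Nat.eq_zero_or_pos a with ha | ha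
        · subst ha; subst hb; omega
        · have := Nat.le_mul_of_pos_left s ha
          omega
      · have := Nat.le_mul_of_pos_left l hb
        omega
  | succ k ih => rw [S, ih, next_C1 hs hsl hl]

def C2 (n l s i k : ℕ) : Set (Fin n) :=
  {v | v.val = i + k ∨ ∃ a b, k + i = l + (v.val + (a * s + b * l))}

theorem next_C2 {n l s i k : ℕ} (hs : 1 ≤ s) (hsl : s < l) (hl : l < n) (hi : s ≤ i) (hil : i < l) :
    next (arr2 (E1 n l s)) (C2 n l s i k) = C2 n l s i (k + 1) := by
  ext u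
  rw [mem_next_arr2]
  constructor
  · rintro ⟨v, hv | ⟨a, b, hab⟩, h | ⟨h0, h | h⟩⟩
    · left; omega
    · right; exact ⟨0, 0, by omega⟩
    · omega
    · right; exact ⟨a, b, by omega⟩
    · right; refine ⟨a, b + 1, ?_⟩
      rw [add_mul b]; omega
    · right; refine ⟨a + 1, b, ?_⟩
      rw [add_mul a]; omega
  · have hu := u.2
    rintro (h | ⟨a, b, hab⟩)
    · refine ⟨⟨u.val - 1, by omega⟩, Or.inl ?_, Or.inl ?_⟩
      · simp only; omega
      · simp only; omega
    · rcases Nat.eq_zero_or_pos u.val with h0 | h0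
      · rcases Nat.eq_zero_or_pos b with hb | hb
        · rcases Nat.eq_zero_or_pos a with ha | ha
          · subst ha; subst hb
            refine ⟨⟨l - 1, by omega⟩, Or.inl ?_, Or.inr ⟨h0, Or.inl ?_⟩⟩
            · simp only; omega
            · simp only; omega
          · obtain ⟨a, rfl⟩ : ∃ a', a = a' + 1 := ⟨a - 1, by omega⟩
            rw [add_mul a] at hab
            refine ⟨⟨s - 1, by omega⟩, Or.inr ⟨a, b, ?_⟩, Or.inr ⟨h0, Or.inr ?_⟩⟩
            · simp only; omega
            · simp only; omega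
        · obtain ⟨b, rfl⟩ : ∃ b', b = b' + 1 := ⟨b - 1, by omega⟩
          rw [add_mul b] at hab
          refine ⟨⟨l - 1, by omega⟩, Or.inr ⟨a, b, ?_⟩, Or.inr ⟨h0, Or.inl ?_⟩⟩
          · simp only; omega
          · simp only; omega
      · refine ⟨⟨u.val - 1, by omega⟩, Or.inr ⟨a, b, ?_⟩, Or.inl ?_⟩
        · simp only; omega
        · simp only; omega

theorem orbit_C2 {n l s : ℕ} (hs : 1 ≤ s) (hsl : s < l) (hl : l < n) (i : Fin n) (hi : s ≤ i.val)
    (hil : i.val < l) (k : ℕ) : S (arr2 (E1 n l s)) i k = C2 n l s i.val k := by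
  induction k with
  | zero =>
    ext v
    simp only [S, Set.mem_singleton_iff, C2, Set.mem_ofPred_eq]
    constructor
    · rintro rfl; left; simp
    · rintro (h | ⟨a, b, hab⟩)
      · ext; omega
      · omega
  | succ k ih => rw [S, ih, next_C2 hs hsl hl hi hil]

theorem dead_E1 {n l s : ℕ} (hsl : s < l) (hl : l < n) (u : Fin n) :
    ¬ E1 n l s u ⟨n - 1, by omega⟩ := by
  have hu := u.2
  rintro (h | ⟨-, h | h⟩) <;> simp only at h <;> omega

theorem mem_R_I {n l s : ℕ} (hc : Nat.Coprime s l) (hs : 1 ≤ s) (hsl : s < l) (hl : l < n)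
    (j : Fin n) {t : ℕ} (h1 : (s - 1) * (l - 1) + n ≤ t + s)
    (h2 : t + s + 1 ≤ (s - 1) * (l - 1) + n + l) : t ∈ R 2 n j := by
  have hnr := not_rep hc hs (by omega : 1 ≤ l)
  set c := (s - 1) * (l - 1) with hcdef
  rcases le_or_gt (c + n) t with h | h
  · -- start in the detour
    have hi : c + n + l - 1 - t < n := by omega
    rw [R_indep j ⟨c + n + l - 1 - t, hi⟩]
    obtain ⟨g, rfl⟩ : ∃ g, t = g + 1 := ⟨t - 1, by omega⟩
    refine ⟨arr2 (E1 n l s), arr2_nonneg _, not_primitive_arr2 _ _ (dead_E1 hsl hl), ?_⟩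
    apply isLeast_of
    · rw [orbit_C2 hs hsl hl _ (by simp only; omega) (by simp only; omega)]
      apply Set.eq_univ_of_forall
      intro v
      have hv := v.2
      obtain ⟨a, b, hab⟩ := rep_of_ge (x := c + (n - 1 - v.val)) hc (by omega)
      right
      refine ⟨a, b, ?_⟩
      rw [← hab]; simp only; omega
    · right
      rw [orbit_C2 hs hsl hl _ (by simp only; omega) (by simp only; omega)]
      intro hu
      have hmem : (⟨n - 1, by omega⟩ : Fin n) ∈ C2 n l s (c + n + l - 1 - (g + 1)) g := by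
        rw [hu]; trivial
      rcases hmem with hm | ⟨a, b, hab⟩
      · simp only at hm; omega
      · simp only at hab
        apply hnr a b
        omega
  · have hi : c + n - 1 - t < n := by omega
    rw [R_indep j ⟨c + n - 1 - t, hi⟩]
    obtain ⟨g, rfl⟩ : ∃ g, t = g + 1 := ⟨t - 1, by omega⟩
    refine ⟨arr2 (E1 n l s), arr2_nonneg _, not_primitive_arr2 _ _ (dead_E1 hsl hl), ?_⟩
    apply isLeast_of
    · rw [orbit_C1 hs hsl hl _ (by simp only; omega)]
      apply Set.eq_univ_of_forall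
      intro v
      have hv := v.2
      obtain ⟨a, b, hab⟩ := rep_of_ge (x := c + (n - 1 - v.val)) hc (by omega)
      refine ⟨a, b, ?_⟩
      rw [← hab]; simp only; omega
    · right
      rw [orbit_C1 hs hsl hl _ (by simp only; omega)]
      intro hu
      have hmem : (⟨n - 1, by omega⟩ : Fin n) ∈ C1 n l s (c + n - 1 - (g + 1)) g := by
        rw [hu]; trivial
      obtain ⟨a, b, hab⟩ := hmem
      simp only at hab
      apply hnr a b
      omega

theorem mem_R_I' {n l s : ℕ} (hc : Nat.Coprime s l) (hs : 1 ≤ s) (hsl : s < l) (hl : l < n)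
    (j : Fin n) {t : ℕ} (h1 : (s - 1) * (l - 1) + l + 1 ≤ t + s)
    (h2 : t + s + 1 ≤ (s - 1) * (l - 1) + n + l) : t ∈ R 2 n j := by
  set c := (s - 1) * (l - 1) with hcdef
  -- choose the dimension `n'`
  rcases le_or_gt (t + s) (c + 2 * l) with h | h
  · have := mem_R_I hc hs hsl (show l < l + 1 by omega) (⟨0, by omega⟩ : Fin (l + 1)) (t := t)
      (by omega) (by omega)
    exact R_mono_dim (by omega) (by omega) j _ this
  · have hn' : t + s + 1 - c - l ≤ n := by omega
    have := mem_R_I (n := t + s + 1 - c - l) hc hs hsl (by omega)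
      (⟨0, by omega⟩ : Fin (t + s + 1 - c - l)) (t := t) (by omega) (by omega)
    exact R_mono_dim (by omega) hn' j _ this

end Pool.Agent.H43.Gaps
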