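import Mathlib
import Pool.Agent.H43.Gaps.DigI

/-!
# Order `2`: the value `(n - 2) * (n - 3)` and its successor
-/

set_option autoImplicit false

namespace Pool.Agent.H43.Gaps

/-- The cycle `0 → 1 → … → c - 1 → 0` with the chords `c - 2 → 0`, `c - 1 → 1` and a dead vertex
`c` whose only in-neighbour is `y` (relation written head first). -/
def E2 (c y : ℕ) (u v : Fin (c + 1)) : Prop :=
  (u.val = v.val + 1 ∧ u.val < c) ∨ (u.val = c ∧ v.val = y) ∨
    (u.val = 0 ∧ (v.val + 1 = c ∨ v.val + 2 = c)) ∨ (u.val = 1 ∧ v.val + 1 = c)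

/-- membership times of the vertices `< c`. -/
def T2 (c k u : ℕ) : Prop := ∃ a b, k = u + (a * (c - 1) + b * c) ∨ k = u + 1 + (a * (c - 1) + b * c)

theorem orbit_E2 {c y : ℕ} (hc : 3 ≤ c) (k : ℕ) (hk : 1 ≤ k) (u : Fin (c + 1))
    (hu : u.val < c) :
    u ∈ S (arr2 (E2 c y)) ⟨c - 1, by omega⟩ k ↔ T2 c k u.val := by
  induction k, hk using Nat.le_induction generalizing u with
  | base =>
    show u ∈ next _ {_} ↔ _
    rw [mem_next_arr2]
    simp only [Set.mem_singleton_iff]
    constructor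
    · rintro ⟨v, rfl, h | h | h | h⟩
      · simp only at h; omega
      · simp only at h; omega
      · refine ⟨0, 0, ?_⟩; omega
      · refine ⟨0, 0, ?_⟩; omega
    · rintro ⟨a, b, h⟩
      refine ⟨_, rfl, ?_⟩
      have h1 : b = 0 := by
        by_contra hb
        have := Nat.le_mul_of_pos_left c (Nat.pos_of_ne_zero hb)
        omega
      have h2 : a = 0 := by
        by_contra ha
        have := Nat.le_mul_of_pos_left (c - 1) (Nat.pos_of_ne_zero ha)
        omega
      subst h1; subst h2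
      simp only [zero_mul, add_zero] at h
      rcases h with h | h
      · right; right; right
        refine ⟨h.symm, ?_⟩
        simp only; omega
      · right; right; left
        refine ⟨by omega, Or.inl ?_⟩
        simp only; omega
  | succ k hk ih =>
    show u ∈ next _ _ ↔ _
    rw [mem_next_arr2]
    constructor
    · rintro ⟨v, hv, h | h | ⟨h0, h | h⟩ | h⟩
      · rw [ih v (by omega)] at hv
        obtain ⟨a, b, hab⟩ := hv
        exact ⟨a, b, by omega⟩
      · omega
      · -- `u = 0`, `v = c - 1`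
        rw [ih v (by omega)] at hv
        obtain ⟨a, b, hab | hab⟩ := hv
        · refine ⟨a, b + 1, Or.inl ?_⟩
          rw [add_mul b]; omega
        · refine ⟨a, b + 1, Or.inr ?_⟩
          rw [add_mul b]; omega
      · -- `u = 0`, `v = c - 2`
        rw [ih v (by omega)] at hv
        obtain ⟨a, b, hab | hab⟩ := hv
        · refine ⟨a + 1, b, Or.inl ?_⟩
          rw [add_mul a]; omega
        · refine ⟨a, b + 1, Or.inl ?_⟩
          rw [add_mul b]; omega
      · -- `u = 1`, `v = c - 1`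
        rw [ih v (by omega)] at hv
        obtain ⟨a, b, hab | hab⟩ := hv
        · refine ⟨a + 1, b, Or.inl ?_⟩
          rw [add_mul a]; omega
        · refine ⟨a, b + 1, Or.inl ?_⟩
          rw [add_mul b]; omega
    · rintro ⟨a, b, hab⟩
      rcases Nat.eq_zero_or_pos u.val with h0 | h0
      · -- `u = 0`
        rcases Nat.eq_zero_or_pos b with hb | hb
        · rcases Nat.eq_zero_or_pos a with ha | ha
          · subst ha; subst hb; omega
          · obtain ⟨a, rfl⟩ : ∃ a', a = a' + 1 := ⟨a - 1, by omega⟩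
            rw [add_mul a] at hab
            rcases hab with hab | hab
            · refine ⟨⟨c - 2, by omega⟩, ?_, Or.inr (Or.inr (Or.inl ⟨h0, Or.inr ?_⟩))⟩
              · rw [ih _ (by simp only; omega)]
                refine ⟨a, b, Or.inl ?_⟩
                simp only; omega
              · simp only; omega
            · refine ⟨⟨c - 1, by omega⟩, ?_, Or.inr (Or.inr (Or.inl ⟨h0, Or.inl ?_⟩))⟩
              · rw [ih _ (by simp only; omega)]
                refine ⟨a, b, Or.inl ?_⟩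
                simp only; omega
              · simp only; omega
        · obtain ⟨b, rfl⟩ : ∃ b', b = b' + 1 := ⟨b - 1, by omega⟩
          rw [add_mul b] at hab
          refine ⟨⟨c - 1, by omega⟩, ?_, Or.inr (Or.inr (Or.inl ⟨h0, Or.inl ?_⟩))⟩
          · rw [ih _ (by simp only; omega)]
            refine ⟨a, b, ?_⟩
            simp only; omega
          · simp only; omega
      · refine ⟨⟨u.val - 1, by omega⟩, ?_, Or.inl ⟨?_, hu⟩⟩
        · rw [ih _ (by simp only; omega)]
          refine ⟨a, b, ?_⟩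
          simp only; omega
        · simp only; omega

theorem T2_of {c u : ℕ} (hc : 3 ≤ c) (hu : u < c) {k : ℕ} (hk : (c - 1) * (c - 2) ≤ k) :
    T2 c k u := by
  obtain ⟨d, rfl⟩ : ∃ d, c = d + 3 := ⟨c - 3, by omega⟩
  have hcop : Nat.Coprime (d + 3 - 1) (d + 3) := by
    rw [show d + 3 - 1 = d + 2 from rfl]
    exact (Nat.coprime_self_add_right (m := d + 2) (n := 1)).2 (Nat.coprime_one_right _)
  simp only [show d + 3 - 1 = d + 2 from rfl, show d + 3 - 2 = d + 1 from rfl] at hk hcop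
  unfold T2
  simp only [show d + 3 - 1 = d + 2 from rfl]
  -- `k ≥ (d+2)(d+1)`
  rcases le_or_gt ((d + 1) * (d + 2) + u) k with h | h
  · obtain ⟨a, b, hab⟩ := rep_of_ge (x := k - u) hcop (by
      simp only [show d + 2 - 1 = d + 1 from rfl, show d + 3 - 1 = d + 2 from rfl]; omega)
    exact ⟨a, b, Or.inl (by omega)⟩
  · -- `k = (d+1)(d+2) + e`, `e < u`; `k - u = (d+1)(d+2) - (u - e)`
    obtain ⟨x, hx1, hx2, hx3⟩ : ∃ x, 1 ≤ x ∧ x ≤ d + 2 ∧ k + x = (d + 1) * (d + 2) + u := by
      refine ⟨(d + 1) * (d + 2) + u - k, ?_, ?_, ?_⟩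
      · omega
      · have : (d + 2) * (d + 1) = (d + 1) * (d + 2) := by ring
        omega
      · omega
    rcases Nat.lt_or_ge x 2 with h2 | h2
    · -- `x = 1`: `k - u - 1 = (d+1)(d+2) - 2 = d (d+2) + d = ...`
      have hx : x = 1 := by omega
      subst hx
      -- `(d+1)(d+2) - 2 = (d+2) * d + (d + 2) - 2`, write with `a = 0`, `b = d`
      refine ⟨0, d, Or.inr ?_⟩
      nlinarith
    · -- `(d+1)(d+2) - x = (x - 2) (d+2) + (d + 2 - x) (d + 3)`
      obtain ⟨y, rfl⟩ : ∃ y, x = y + 2 := ⟨x - 2, by omega⟩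
      obtain ⟨z, rfl⟩ : ∃ z, d = y + z := ⟨d - y, by omega⟩
      refine ⟨y, z, Or.inl ?_⟩
      nlinarith

theorem not_T2 {c : ℕ} (hc : 3 ≤ c) : ¬ T2 c ((c - 1) * (c - 2) - 1) (c - 1) := by
  obtain ⟨d, rfl⟩ : ∃ d, c = d + 3 := ⟨c - 3, by omega⟩
  have hcop : Nat.Coprime (d + 3 - 1) (d + 3) := by
    rw [show d + 3 - 1 = d + 2 from rfl]
    exact (Nat.coprime_self_add_right (m := d + 2) (n := 1)).2 (Nat.coprime_one_right _)
  rintro ⟨a, b, h⟩
  have hpos : 0 < (d + 3 - 1) * (d + 3 - 2) := by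
    rw [show d + 3 - 1 = d + 2 from rfl, show d + 3 - 2 = d + 1 from rfl]; positivity
  have e1 : (d + 3 - 2) * (d + 3 - 1) = (d + 3 - 1) * (d + 3 - 2) := mul_comm _ _
  have e2 : (d + 3 - 1 - 1) = d + 3 - 2 := rfl
  rcases h with h | h
  · have := not_rep hcop (by omega) (by omega) (a + 1) b
    rw [add_mul a, e2, e1] at this
    omega
  · have := not_rep hcop (by omega) (by omega) a (b + 1)
    rw [add_mul b, e2, e1] at this
    omega

theorem dead_E2 {c y : ℕ} (hy : y < c) (u : Fin (c + 1)) : ¬ E2 c y u ⟨c, by omega⟩ := by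
  have hu := u.2
  rintro (h | h | h | h) <;> simp only at h <;> omega

/-- `(n - 2) (n - 3) ∈ R_j(2, n)` for `n ≥ 4`. -/
theorem mem_R_II_a {c : ℕ} (hc : 3 ≤ c) (j : Fin (c + 1)) : (c - 1) * (c - 2) ∈ R 2 (c + 1) j := by
  rw [R_indep j ⟨c - 1, by omega⟩]
  have hpos : 1 < (c - 1) * (c - 2) := by
    obtain ⟨d, rfl⟩ : ∃ d, c = d + 3 := ⟨c - 3, by omega⟩
    rw [show d + 3 - 1 = d + 2 from rfl, show d + 3 - 2 = d + 1 from rfl]
    nlinarith
  obtain ⟨g, hg⟩ : ∃ g, (c - 1) * (c - 2) = g + 1 := ⟨(c - 1) * (c - 2) - 1, by omega⟩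
  have hg1 : 1 ≤ g := by omega
  rw [hg]
  refine ⟨arr2 (E2 c (c - 2)), arr2_nonneg _, not_primitive_arr2 _ _ (dead_E2 (by omega)), ?_⟩
  apply isLeast_of
  · apply Set.eq_univ_of_forall
    intro u
    rcases Nat.lt_or_ge u.val c with h | h
    · rw [orbit_E2 hc _ (by omega) u h]
      exact T2_of hc h (by omega)
    · have hu : u.val = c := by have := u.2; omega
      show u ∈ next _ _
      rw [mem_next_arr2]
      refine ⟨⟨c - 2, by omega⟩, ?_, Or.inr (Or.inl ⟨hu, rfl⟩)⟩
      rw [orbit_E2 hc _ (by omega) _ (by simp only; omega)]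
      simp only
      obtain ⟨d, rfl⟩ : ∃ d, c = d + 3 := ⟨c - 3, by omega⟩
      simp only [show d + 3 - 1 = d + 2 from rfl, show d + 3 - 2 = d + 1 from rfl] at hg ⊢
      -- `g = (d+2)(d+1) - 1`, `g - (d+1) = (d+1)(d+1) - 1 = d (d+2)`
      refine ⟨d, 0, Or.inl ?_⟩
      simp only [show d + 3 - 1 = d + 2 from rfl]
      nlinarith
  · right
    intro h
    have hmem : (⟨c - 1, by omega⟩ : Fin (c + 1)) ∈
        S (arr2 (E2 c (c - 2))) ⟨c - 1, by omega⟩ g := by rw [h]; trivial
    rw [orbit_E2 hc _ hg1 _ (by simp only; omega)] at hmem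
    apply not_T2 hc
    rw [show (c - 1) * (c - 2) - 1 = g by omega]
    exact hmem

/-- `(n - 2) (n - 3) + 1 ∈ R_j(2, n)` for `n ≥ 4`. -/
theorem mem_R_II_b {c : ℕ} (hc : 3 ≤ c) (j : Fin (c + 1)) :
    (c - 1) * (c - 2) + 1 ∈ R 2 (c + 1) j := by
  rw [R_indep j ⟨c - 1, by omega⟩]
  have hpos : 1 < (c - 1) * (c - 2) := by
    obtain ⟨d, rfl⟩ : ∃ d, c = d + 3 := ⟨c - 3, by omega⟩
    rw [show d + 3 - 1 = d + 2 from rfl, show d + 3 - 2 = d + 1 from rfl]
    nlinarith
  refine ⟨arr2 (E2 c (c - 1)), arr2_nonneg _, not_primitive_arr2 _ _ (dead_E2 (by omega)), ?_⟩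
  apply isLeast_of
  · apply Set.eq_univ_of_forall
    intro u
    rcases Nat.lt_or_ge u.val c with h | h
    · rw [orbit_E2 hc _ (by omega) u h]
      exact T2_of hc h (by omega)
    · have hu : u.val = c := by have := u.2; omega
      show u ∈ next _ _
      rw [mem_next_arr2]
      refine ⟨⟨c - 1, by omega⟩, ?_, Or.inr (Or.inl ⟨hu, rfl⟩)⟩
      rw [orbit_E2 hc _ (by omega) _ (by simp only; omega)]
      exact T2_of hc (by simp only; omega) le_rfl
  · right
    intro h
    have hmem : (⟨c, by omega⟩ : Fin (c + 1)) ∈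
        S (arr2 (E2 c (c - 1))) ⟨c - 1, by omega⟩ ((c - 1) * (c - 2)) := by rw [h]; trivial
    obtain ⟨g, hg⟩ : ∃ g, (c - 1) * (c - 2) = g + 1 := ⟨(c - 1) * (c - 2) - 1, by omega⟩
    rw [hg] at hmem
    change _ ∈ next _ _ at hmem
    rw [mem_next_arr2] at hmem
    obtain ⟨v, hv, h1 | h1 | h1 | h1⟩ := hmem
    · simp only at h1; omega
    · obtain ⟨-, h1⟩ := h1
      have hv2 := (orbit_E2 hc g (by omega) v (by omega)).1 hv
      apply not_T2 hc
      rw [show (c - 1) * (c - 2) - 1 = g by omega]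
      rw [h1] at hv2
      exact hv2
    · simp only at h1; omega
    · simp only at h1; omega

end Pool.Agent.H43.Gaps
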