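import Mathlib
import Pool.Agent.H43.Gaps.DigII

/-!
# Order `2`: all values outside the gap are attained
-/

set_option autoImplicit false

namespace Pool.Agent.H43.Gaps

theorem one_mem_R2 {n : ℕ} (hn : 2 ≤ n) (j : Fin n) : 1 ∈ R 2 n j := by
  obtain ⟨w, hw⟩ : ∃ w : Fin n, w ≠ j := by
    have : Nontrivial (Fin n) := Fin.nontrivial_iff_two_le.2 hn
    exact exists_ne j
  refine ⟨arr2 (fun _ v => v = j), arr2_nonneg _, not_primitive_arr2 _ w (fun _ => hw), ?_⟩
  apply isLeast_of (g := 0)
  · apply Set.eq_univ_of_forall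
    intro u
    show u ∈ next _ {j}
    rw [mem_next_arr2]
    exact ⟨j, rfl, rfl⟩
  · left; rfl

/-- cycles `q + 1`, `q + 2` -/
theorem valsA {N q t : ℕ} (hq : q ≤ N) (j : Fin (N + 3)) (h1 : q * (q + 1) + 2 ≤ t)
    (h2 : t ≤ q * (q + 1) + N + 3) : t ∈ R 2 (N + 3) j := by
  apply mem_R_I' (l := q + 2) (s := q + 1) _ (by omega) (by omega) (by omega)
  · rw [show q + 1 - 1 = q from rfl, show q + 2 - 1 = q + 1 from rfl]; omega
  · rw [show q + 1 - 1 = q from rfl, show q + 2 - 1 = q + 1 from rfl]; omega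
  · rw [show q + 2 = (q + 1) + 1 from rfl]
    exact (Nat.coprime_self_add_right (m := q + 1) (n := 1)).2 (Nat.coprime_one_right _)

/-- cycles `q`, `q + 2` with `q` odd -/
theorem valsB {N q t : ℕ} (hq : q ≤ N) (ho : Odd q) (j : Fin (N + 3)) (h1 : q * q + 2 ≤ t)
    (h2 : t ≤ q * q + N + 3) : t ∈ R 2 (N + 3) j := by
  obtain ⟨p, rfl⟩ : ∃ p, q = p + 1 := ⟨q - 1, by have := ho.pos; omega⟩
  have e : (p + 1) * (p + 1) = p * (p + 2) + 1 := by ring
  rw [e] at h1 h2
  apply mem_R_I' (l := p + 3) (s := p + 1) _ (by omega) (by omega) (by omega)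
  · rw [show p + 1 - 1 = p from rfl, show p + 3 - 1 = p + 2 from rfl]; omega
  · rw [show p + 1 - 1 = p from rfl, show p + 3 - 1 = p + 2 from rfl]; omega
  · rw [show p + 3 = (p + 1) + 2 from rfl, Nat.coprime_self_add_right]
    exact ho.coprime_two_right

/-- cycles `p`, `p + 4` with `p` odd -/
theorem valsC {N p t : ℕ} (hq : p + 2 ≤ N) (ho : Odd p) (j : Fin (N + 3))
    (h1 : p * (p + 2) + 2 ≤ t) (h2 : t ≤ p * (p + 2) + N + 3) : t ∈ R 2 (N + 3) j := by
  obtain ⟨p, rfl⟩ : ∃ p', p = p' + 1 := ⟨p - 1, by have := ho.pos; omega⟩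
  have e : (p + 1) * (p + 1 + 2) = p * (p + 4) + 3 := by ring
  rw [e] at h1 h2
  apply mem_R_I' (l := p + 5) (s := p + 1) _ (by omega) (by omega) (by omega)
  · rw [show p + 1 - 1 = p from rfl, show p + 5 - 1 = p + 4 from rfl]; omega
  · rw [show p + 1 - 1 = p from rfl, show p + 5 - 1 = p + 4 from rfl]; omega
  · rw [show p + 5 = (p + 1) + 4 from rfl, Nat.coprime_self_add_right]
    have : Nat.Coprime (p + 1) 2 := ho.coprime_two_right
    exact Nat.Coprime.mul_right this this

theorem mem_R2 {N t : ℕ} (j : Fin (N + 3)) (h1 : 1 ≤ t) (h2 : t ≤ (N + 1) * (N + 1) + 2)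
    (h3 : ¬ (Even N ∧ N * N + 4 ≤ t ∧ t < N * (N + 1))) : t ∈ R 2 (N + 3) j := by
  rcases Nat.lt_or_ge t 2 with ht | ht
  · have : t = 1 := by omega
    subst this
    exact one_mem_R2 (by omega) j
  obtain ⟨x, rfl⟩ : ∃ x, t = x + 2 := ⟨t - 2, by omega⟩
  set q := Nat.sqrt x with hq
  have hq1 : q * q ≤ x := Nat.sqrt_le x
  have hq2 : x < (q + 1) * (q + 1) := Nat.sqrt_lt.1 (Nat.lt_succ_self _)
  rcases Nat.lt_or_ge N q with hqN | hqN
  · -- the largest value
    have h5 : (N + 1) * (N + 1) ≤ q * q := Nat.mul_le_mul hqN hqN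
    refine valsA (q := N) le_rfl j ?_ ?_
    · nlinarith
    · nlinarith
  rcases Nat.lt_or_ge x (q * (q + 1)) with hx | hx
  · rcases Nat.even_or_odd q with he | ho
    · have hq0 : q ≠ 0 := by
        intro h0
        rw [h0] at hx
        simp at hx
      obtain ⟨r, hr⟩ := he
      rcases Nat.lt_or_ge q N with hqN' | hqN'
      · obtain ⟨p, hp⟩ : ∃ p, q = p + 1 := ⟨q - 1, by omega⟩
        have hpo : Odd p := ⟨r - 1, by omega⟩
        rw [hp] at hx hq1 hqN'
        refine valsC (p := p) (by omega) hpo j ?_ ?_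
        · nlinarith
        · nlinarith
      · have hqN2 : q = N := by omega
        rw [hqN2] at hx hq1 hr
        have hNe : Even N := ⟨r, hr⟩
        rcases Nat.lt_or_ge (x + 2) (N * N + 4) with h6 | h6
        · obtain ⟨M, hM⟩ : ∃ M, N = M + 1 := ⟨N - 1, by omega⟩
          refine valsA (q := M) (by omega) j ?_ ?_
          · rw [hM] at hq1; nlinarith
          · rw [hM] at h6 ⊢; nlinarith
        · have h7 : N * (N + 1) ≤ x + 2 := by
            by_contra hcon
            push Not at hcon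
            exact h3 ⟨hNe, h6, hcon⟩
          have hN2 : 2 ≤ N := by
            rcases Nat.lt_or_ge N 2 with h8 | h8
            · exfalso
              have : N = 0 := by
                rcases Nat.lt_or_ge N 1 with h9 | h9
                · omega
                · omega
              omega
            · exact h8
          have ha := mem_R_II_a (c := N + 2) (by omega) j
          have hb := mem_R_II_b (c := N + 2) (by omega) j
          rw [show (N + 2 - 1) * (N + 2 - 2) = N * (N + 1) by
            rw [show N + 2 - 1 = N + 1 from rfl, show N + 2 - 2 = N from rfl]; ring] at ha hb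
          rcases Nat.lt_or_ge (N * (N + 1)) (x + 2) with h9 | h9
          · rw [show x + 2 = N * (N + 1) + 1 by omega]
            exact hb
          · rw [show x + 2 = N * (N + 1) by omega]
            exact ha
    · refine valsB hqN ho j (by omega) ?_
      nlinarith
  · refine valsA hqN j (by omega) ?_
    nlinarith

end Pool.Agent.H43.Gaps
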