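import Mathlib
import Pool.Agent.H43.Gaps.DigI

/-!
# Walks in a finite digraph and the strong component of a vertex that reaches everything
-/

set_option autoImplicit false

namespace Pool.Agent.H43.Gaps

section Walks

variable {V : Type*} (E : V → V → Prop)

/-- `W E k u v`: there is a walk of length `k` from `u` to `v`. -/
def W : ℕ → V → V → Prop
  | 0, u, v => u = v
  | k + 1, u, v => ∃ w, W k u w ∧ E w v

variable {E}

theorem W_add {a b : ℕ} {u v : V} : W E (a + b) u v ↔ ∃ w, W E a u w ∧ W E b w v := by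
  induction b generalizing v with
  | zero => simp [W]
  | succ b ih =>
    constructor
    · rintro ⟨w, hw, he⟩
      obtain ⟨x, hx, hx'⟩ := ih.1 hw
      exact ⟨x, hx, w, hx', he⟩
    · rintro ⟨x, hx, w, hw, he⟩
      exact ⟨w, ih.2 ⟨x, hx, hw⟩, he⟩

theorem W_trans {a b : ℕ} {u w v : V} (h1 : W E a u w) (h2 : W E b w v) : W E (a + b) u v :=
  W_add.2 ⟨w, h1, h2⟩

theorem W_one {u v : V} : W E 1 u v ↔ E u v := by
  constructor
  · rintro ⟨w, rfl, h⟩; exact h
  · intro h; exact ⟨u, rfl, h⟩

theorem W_mul {a : ℕ} {u : V} (h : W E a u u) (p : ℕ) : W E (p * a) u u := by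
  induction p with
  | zero => simp [W]
  | succ p ih => rw [add_mul, one_mul]; exact W_trans ih h

theorem W_iff_walk {k : ℕ} {u v : V} :
    W E k u v ↔ ∃ c : ℕ → V, c 0 = u ∧ c k = v ∧ ∀ i < k, E (c i) (c (i + 1)) := by
  induction k generalizing v with
  | zero =>
    constructor
    · intro h; exact ⟨fun _ => u, rfl, h, by simp⟩
    · rintro ⟨c, rfl, rfl, -⟩; rfl
  | succ k ih =>
    constructor
    · rintro ⟨w, hw, he⟩
      obtain ⟨c, h0, h1, h2⟩ := ih.1 hw
      refine ⟨fun i => if i ≤ k then c i else v, by simpa using h0, by simp, ?_⟩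
      intro i hi
      rcases Nat.lt_or_ge i k with h | h
      · simp only [h.le, if_true, Nat.succ_le_of_lt h]
        exact h2 i h
      · have : i = k := by omega
        subst this
        simp [h1, he]
    · rintro ⟨c, h0, h1, h2⟩
      refine ⟨c k, ih.2 ⟨c, h0, rfl, fun i hi => h2 i (by omega)⟩, ?_⟩
      rw [← h1]
      exact h2 k (by omega)

theorem W_seg {c : ℕ → V} {k : ℕ} (hc : ∀ i < k, E (c i) (c (i + 1))) {a b : ℕ} (hab : a ≤ b)
    (hb : b ≤ k) : W E (b - a) (c a) (c b) := by
  rw [W_iff_walk]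
  refine ⟨fun i => c (a + i), by simp, ?_, ?_⟩
  · simp only; rw [Nat.add_sub_cancel' hab]
  · intro i hi
    have := hc (a + i) (by omega)
    rwa [add_assoc] at this

theorem growth {V : Type*} [DecidableEq V] (K : Finset V) (Y : ℕ → Finset V)
    (hsub : ∀ i, Y i ⊆ Y (i + 1)) (hK : ∀ i, Y i ⊆ K) (hstat : ∀ i, Y i = Y (i + 1) → Y i = K)
    (c0 : ℕ) (h0 : c0 ≤ (Y 0).card) (i : ℕ) (hi : K.card ≤ c0 + i) : Y i = K := by
  have key : ∀ i, Y i = K ∨ c0 + i ≤ (Y i).card := by
    intro i
    induction i with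
    | zero => right; simpa using h0
    | succ i ih =>
      rcases ih with h | h
      · left
        apply Finset.Subset.antisymm (hK _)
        rw [← h]; exact hsub i
      · by_cases h1 : Y i = Y (i + 1)
        · left; rw [← h1]; exact hstat i h1
        · right
          have := Finset.card_lt_card (Finset.ssubset_iff_subset_ne.2 ⟨hsub i, h1⟩)
          omega
  rcases key i with h | h
  · exact h
  · exact Finset.eq_of_subset_of_card_le (hK i) (hi.trans h)

end Walks

section Comp

variable {V : Type*} [Fintype V] [DecidableEq V] {E : V → V → Prop}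

open Classical in
/-- the vertices from which `j` can be reached -/
noncomputable def KK (E : V → V → Prop) (j : V) : Finset V :=
  Finset.univ.filter (fun v => ∃ k, W E k v j)

theorem mem_KK {j v : V} : v ∈ KK E j ↔ ∃ k, W E k v j := by
  simp [KK]

theorem self_mem_KK (j : V) : j ∈ KK E j := mem_KK.2 ⟨0, rfl⟩

theorem KK_pred {j u v : V} {a : ℕ} (h : W E a u v) (hv : v ∈ KK E j) : u ∈ KK E j := by
  obtain ⟨k, hk⟩ := mem_KK.1 hv
  exact mem_KK.2 ⟨a + k, W_trans h hk⟩

variable {j : V} {g : ℕ} (hg : ∀ v, ∀ k, g ≤ k → W E k j v)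

include hg

theorem KK_reach {u : V} (hu : u ∈ KK E j) : ∃ k0, ∀ v, ∀ k, k0 ≤ k → W E k u v := by
  obtain ⟨a, ha⟩ := mem_KK.1 hu
  refine ⟨a + g, fun v k hk => ?_⟩
  have := W_trans ha (hg v (k - a) (by omega))
  rwa [show a + (k - a) = k by omega] at this

theorem KK_inn {v : V} (hv : v ∈ KK E j) : ∃ w ∈ KK E j, E w v := by
  obtain ⟨w, hw, he⟩ := hg v (g + 1) (by omega)
  exact ⟨w, KK_pred (W_one.2 he) hv, he⟩

/-- from a vertex with a closed walk of length `s`, all of `K` is covered in exactly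
`s * (d - 1)` steps. -/
theorem cover_of_loop {z : V} (hz : z ∈ KK E j) {s : ℕ} (hs1 : 1 ≤ s) (hs : W E s z z) {v : V}
    (hv : v ∈ KK E j) {i : ℕ} (hi : (KK E j).card ≤ i + 1) : W E (s * i) z v := by
  classical
  let X : ℕ → Finset V := fun i => (KK E j).filter (fun v => W E (s * i) z v)
  have hX : ∀ i v, v ∈ X i ↔ v ∈ KK E j ∧ W E (s * i) z v := by
    intro i v; simp [X]
  have hmono : ∀ i, X i ⊆ X (i + 1) := by
    intro i v hv
    rw [hX] at hv ⊢
    refine ⟨hv.1, ?_⟩
    have := W_trans hs hv.2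
    rwa [show s + s * i = s * (i + 1) by ring] at this
  have hstat : ∀ i, X i = X (i + 1) → X i = KK E j := by
    intro i h
    have h1 : ∀ m, X (i + m) = X i := by
      intro m
      induction m with
      | zero => rfl
      | succ m ih =>
        apply Finset.Subset.antisymm
        · intro v hv
          rw [← add_assoc] at hv
          rw [hX] at hv
          obtain ⟨hvK, hv⟩ := hv
          rw [show s * (i + m + 1) = s * (i + m) + s by ring] at hv
          obtain ⟨w, hw1, hw2⟩ := W_add.1 hv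
          have hwK : w ∈ KK E j := KK_pred hw2 hvK
          have hwX : w ∈ X (i + m) := (hX _ _).2 ⟨hwK, hw1⟩
          rw [ih] at hwX
          rw [h, hX]
          refine ⟨hvK, ?_⟩
          have := W_trans ((hX _ _).1 hwX).2 hw2
          rwa [show s * i + s = s * (i + 1) by ring] at this
        · rw [← add_assoc]
          exact (ih.symm ▸ hmono (i + m) : X i ⊆ X (i + m + 1))
    apply Finset.Subset.antisymm (fun v hv => ((hX _ _).1 hv).1)
    intro v hv
    obtain ⟨k0, hk0⟩ := KK_reach hg hz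
    rw [← h1 k0, hX]
    refine ⟨hv, hk0 v _ ?_⟩
    nlinarith
  have h0 : 1 ≤ (X 0).card := by
    rw [Nat.one_le_iff_ne_zero, Finset.card_ne_zero]
    exact ⟨z, (hX _ _).2 ⟨hz, by simp [W]⟩⟩
  have := growth (KK E j) X hmono (fun i v hv => ((hX _ _).1 hv).1) hstat 1 h0 i (by omega)
  have hv' : v ∈ X i := by rw [this]; exact hv
  exact ((hX _ _).1 hv').2

/-- once `K` is covered at time `k` it stays covered. -/
theorem KK_stay {k : ℕ} (hk : ∀ v ∈ KK E j, W E k j v) {l : ℕ} (hl : k ≤ l) :
    ∀ v ∈ KK E j, W E l j v := by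
  induction l, hl using Nat.le_induction with
  | base => exact hk
  | succ l hl ih =>
    intro v hv
    obtain ⟨w, hw, he⟩ := KK_inn hg hv
    exact ⟨w, ih w hw, he⟩

/-- if `K` is covered from time `k` on, everything is covered from time `k + (n - d)` on. -/
theorem all_of_KK {k : ℕ} (hk : ∀ v ∈ KK E j, W E k j v) {l : ℕ}
    (hl : k + (Fintype.card V - (KK E j).card) ≤ l) (v : V) : W E l j v := by
  classical
  have hstay := fun l (hl : k ≤ l) => KK_stay hg hk hl
  let Z : ℕ → Finset V := fun i => Finset.univ.filter (fun v => ∃ i' ≤ i, ∃ z ∈ KK E j, W E i' z v)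
  have hZ : ∀ i v, v ∈ Z i ↔ ∃ i' ≤ i, ∃ z ∈ KK E j, W E i' z v := by
    intro i v; simp [Z]
  have hmono : ∀ i, Z i ⊆ Z (i + 1) := by
    intro i v hv
    rw [hZ] at hv ⊢
    obtain ⟨i', hi', h⟩ := hv
    exact ⟨i', by omega, h⟩
  have hstat : ∀ i, Z i = Z (i + 1) → Z i = Finset.univ := by
    intro i h
    have h1 : ∀ m, Z (i + m) = Z i := by
      intro m
      induction m with
      | zero => rfl
      | succ m ih =>
        apply Finset.Subset.antisymm
        · intro v hv
          rw [hZ] at hv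
          obtain ⟨i', hi', z, hz, hw⟩ := hv
          rcases Nat.eq_zero_or_pos i' with h0 | h0
          · rw [hZ]; exact ⟨i', by omega, z, hz, hw⟩
          · obtain ⟨i'', rfl⟩ : ∃ i'', i' = i'' + 1 := ⟨i' - 1, by omega⟩
            obtain ⟨w, hw1, he⟩ := hw
            have hwZ : w ∈ Z (i + m) := (hZ _ _).2 ⟨i'', by omega, z, hz, hw1⟩
            rw [ih, hZ] at hwZ
            obtain ⟨i3, hi3, z', hz', hw'⟩ := hwZ
            rw [h, hZ]
            exact ⟨i3 + 1, by omega, z', hz', w, hw', he⟩
        · rw [← add_assoc]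
          exact (ih.symm ▸ hmono (i + m) : Z i ⊆ Z (i + m + 1))
    apply Finset.Subset.antisymm (Finset.subset_univ _)
    intro v _
    rw [← h1 g, hZ]
    exact ⟨g, by omega, j, self_mem_KK j, hg v g le_rfl⟩
  have h0 : (KK E j).card ≤ (Z 0).card := by
    apply Finset.card_le_card
    intro v hv
    rw [hZ]
    exact ⟨0, le_rfl, v, hv, rfl⟩
  have := growth Finset.univ Z hmono (fun i => Finset.subset_univ _) hstat (KK E j).card h0
    (Fintype.card V - (KK E j).card) (by
      rw [Finset.card_univ]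
      have := Finset.card_le_univ (KK E j)
      omega)
  have hv' : v ∈ Z (Fintype.card V - (KK E j).card) := by rw [this]; exact Finset.mem_univ v
  obtain ⟨i', hi', z, hz, hw⟩ := (hZ _ _).1 hv'
  have := W_trans (hstay (l - i') (by omega) z hz) hw
  rwa [show l - i' + i' = l by omega] at this

omit hg in
/-- Cutting: a walk of length `≥ d` ending in `K` contains a short closed walk. -/
theorem cut {L : ℕ} {u v : V} (h : W E L u v) (hv : v ∈ KK E j) (hL : (KK E j).card ≤ L) :
    ∃ z ∈ KK E j, ∃ b, 1 ≤ b ∧ b ≤ (KK E j).card ∧ W E b z z ∧ W E (L - b) u v := by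
  obtain ⟨c, h0, h1, h2⟩ := W_iff_walk.1 h
  have hcK : ∀ i ≤ L, c i ∈ KK E j := by
    intro i hi
    have := W_seg h2 hi le_rfl
    rw [h1] at this
    exact KK_pred this hv
  -- pigeonhole on `0, …, d`
  obtain ⟨a, ha, b, hb, hab, hceq⟩ : ∃ a ∈ Finset.range ((KK E j).card + 1),
      ∃ b ∈ Finset.range ((KK E j).card + 1), a ≠ b ∧ c a = c b := by
    apply Finset.exists_ne_map_eq_of_card_lt_of_maps_to (t := KK E j)
    · rw [Finset.card_range]; omega
    · intro i hi
      simp only [Finset.coe_range, Set.mem_Iio] at hi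
      exact hcK i (by omega)
  rw [Finset.mem_range] at ha hb
  wlog hlt : a < b generalizing a b
  · exact this b hb a ha hab.symm hceq.symm (by omega)
  refine ⟨c a, hcK a (by omega), b - a, by omega, by omega, ?_, ?_⟩
  · have := W_seg h2 hlt.le (by omega : b ≤ L)
    rwa [← hceq] at this
  · have h3 := W_seg h2 (Nat.zero_le a) (by omega : a ≤ L)
    have h4 := W_seg h2 (by omega : b ≤ L) le_rfl
    rw [← hceq] at h4
    have := W_trans h3 h4
    rw [h0, h1] at this
    rwa [show a - 0 + (L - b) = L - (b - a) by omega] at this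

omit hg in
/-- Lengths of closed walks in `K` are sums of lengths of short closed walks. -/
theorem closed_walk_ind (P : ℕ → Prop) (hP0 : P 0)
    (hP : ∀ x b, P x → 1 ≤ b → b ≤ (KK E j).card → (∃ z ∈ KK E j, W E b z z) → P (x + b))
    {u : V} (hu : u ∈ KK E j) : ∀ L, W E L u u → P L := by
  intro L
  induction L using Nat.strong_induction_on with
  | _ L ih =>
    intro h
    rcases Nat.eq_zero_or_pos L with h0 | h0
    · rw [h0]; exact hP0
    rcases Nat.lt_or_ge L (KK E j).card with h1 | h1
    · have := hP 0 L hP0 h0 h1.le ⟨u, hu, h⟩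
      simpa using this
    · obtain ⟨z, hz, b, hb1, hb2, hb3, hb4⟩ := cut h hu h1
      have := hP (L - b) b (ih (L - b) (by omega) hb4) hb1 hb2 ⟨z, hz, hb3⟩
      rwa [show L - b + b = L by omega] at this

end Comp

end Pool.Agent.H43.Gaps
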