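import Mathlib
import Pool.Agent.H43.Gaps.Walks

/-!
# Upper bounds for the time at which everything is covered
-/

set_option autoImplicit false

namespace Pool.Agent.H43.Gaps

variable {V : Type*} [Fintype V] [DecidableEq V] {E : V → V → Prop}

omit [Fintype V] [DecidableEq V] in
/-- first step decomposition -/
theorem W_succ' {k : ℕ} {u v : V} : W E (k + 1) u v ↔ ∃ w, E u w ∧ W E k w v := by
  rw [add_comm, W_add]
  simp only [W_one]

/-- a closed walk of minimal length at `u` is a simple cycle -/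
theorem simple_closed {j u : V} (hu : u ∈ KK E j) {L : ℕ} (hW : W E L u u)
    (hmin : ∀ b, 1 ≤ b → W E b u u → L ≤ b) :
    ∃ c : ℕ → V, c 0 = u ∧ c L = u ∧ (∀ i < L, E (c i) (c (i + 1))) ∧
      (∀ i ≤ L, c i ∈ KK E j) ∧ Set.InjOn c (Set.Iio L) := by
  obtain ⟨c, h0, h1, h2⟩ := W_iff_walk.1 hW
  refine ⟨c, h0, h1, h2, ?_, ?_⟩
  · intro i hi
    have := W_seg h2 hi le_rfl
    rw [h1] at this
    exact KK_pred this hu
  · intro a ha b hb hab
    rw [Set.mem_Iio] at ha hb
    by_contra hne
    wlog hlt : a < b generalizing a b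
    · exact this hb ha hab.symm (fun h => hne h.symm) (by omega)
    have h3 := W_seg h2 (Nat.zero_le a) (by omega : a ≤ L)
    have h4 := W_seg h2 (by omega : b ≤ L) le_rfl
    rw [← hab] at h4
    have := W_trans h3 h4
    rw [h0, h1] at this
    have := hmin _ (by omega) this
    omega

/-- a shortest walk is a path -/
theorem simple_path {j u v : V} (hv : v ∈ KK E j) {L : ℕ} (hW : W E L u v)
    (hmin : ∀ b, W E b u v → L ≤ b) :
    ∃ c : ℕ → V, c 0 = u ∧ c L = v ∧ (∀ i < L, E (c i) (c (i + 1))) ∧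
      (∀ i ≤ L, c i ∈ KK E j) ∧ Set.InjOn c (Set.Iio (L + 1)) := by
  obtain ⟨c, h0, h1, h2⟩ := W_iff_walk.1 hW
  refine ⟨c, h0, h1, h2, ?_, ?_⟩
  · intro i hi
    have := W_seg h2 hi le_rfl
    rw [h1] at this
    exact KK_pred this hv
  · intro a ha b hb hab
    rw [Set.mem_Iio] at ha hb
    by_contra hne
    wlog hlt : a < b generalizing a b
    · exact this hb ha hab.symm (fun h => hne h.symm) (by omega)
    have h3 := W_seg h2 (Nat.zero_le a) (by omega : a ≤ L)
    have h4 := W_seg h2 (by omega : b ≤ L) le_rfl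
    rw [← hab] at h4
    have := W_trans h3 h4
    rw [h0, h1] at this
    have := hmin _ this
    omega

/-- The vertex set of a simple cycle: `C` has `s` elements, all of them in `K`, and for any two
of its elements the cycle can be traversed from the first to the first through the second. -/
theorem cycle_set {j u : V} {L : ℕ} {c : ℕ → V} (h0 : c 0 = u) (h1 : c L = u)
    (h2 : ∀ i < L, E (c i) (c (i + 1))) (hK : ∀ i ≤ L, c i ∈ KK E j)
    (hinj : Set.InjOn c (Set.Iio L)) :
    ∃ C : Finset V, C.card = L ∧ C ⊆ KK E j ∧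
      (∀ x ∈ C, ∀ y ∈ C, ∃ a b, a + b = L ∧ W E a x y ∧ W E b y x) ∧
      ∀ x ∈ C, ∃ y ∈ C, E x y := by
  refine ⟨(Finset.range L).image c, ?_, ?_, ?_, ?_⟩
  · rw [Finset.card_image_of_injOn, Finset.card_range]
    simpa using hinj
  · intro x hx
    obtain ⟨i, hi, rfl⟩ := Finset.mem_image.1 hx
    exact hK i (Finset.mem_range.1 hi).le
  · intro x hx y hy
    obtain ⟨a, ha, rfl⟩ := Finset.mem_image.1 hx
    obtain ⟨b, hb, rfl⟩ := Finset.mem_image.1 hy
    rw [Finset.mem_range] at ha hb
    have key : ∀ a b, a ≤ b → b < L → W E (b - a) (c a) (c b) ∧ W E (L - (b - a)) (c b) (c a) := by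
      intro a b hab hb
      refine ⟨W_seg h2 hab hb.le, ?_⟩
      have h3 := W_seg h2 (Nat.zero_le a) (by omega : a ≤ L)
      have h4 := W_seg h2 (by omega : b ≤ L) le_rfl
      rw [h1] at h4
      rw [h0] at h3
      have := W_trans h4 h3
      rwa [show L - b + (a - 0) = L - (b - a) by omega] at this
    rcases le_total a b with hab | hab
    · obtain ⟨h5, h6⟩ := key a b hab hb
      exact ⟨b - a, L - (b - a), by omega, h5, h6⟩
    · obtain ⟨h5, h6⟩ := key b a hab ha
      exact ⟨L - (a - b), a - b, by omega, h6, h5⟩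
  · intro x hx
    obtain ⟨a, ha, rfl⟩ := Finset.mem_image.1 hx
    rw [Finset.mem_range] at ha
    rcases Nat.lt_or_ge (a + 1) L with h | h
    · exact ⟨c (a + 1), Finset.mem_image.2 ⟨a + 1, Finset.mem_range.2 h, rfl⟩, h2 a ha⟩
    · have h5 : a + 1 = L := by omega
      refine ⟨c 0, Finset.mem_image.2 ⟨0, Finset.mem_range.2 (by omega), rfl⟩, ?_⟩
      have := h2 a ha
      rwa [h5, h1, ← h0] at this

variable {j : V} {g : ℕ} (hg : ∀ v, ∀ k, g ≤ k → W E k j v)

include hg

/-- the distance from `j` to a set `C` meeting `K` -/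
theorem reach_set {C : Finset V} (hC : C.Nonempty) (hCK : C ⊆ KK E j) :
    ∃ z ∈ C, ∃ i ≤ (KK E j).card - C.card, W E i j z := by
  classical
  let Y : ℕ → Finset V := fun i => (KK E j).filter (fun v => ∃ i' ≤ i, ∃ z ∈ C, W E i' v z)
  have hY : ∀ i v, v ∈ Y i ↔ v ∈ KK E j ∧ ∃ i' ≤ i, ∃ z ∈ C, W E i' v z := by
    intro i v; simp [Y]
  have hmono : ∀ i, Y i ⊆ Y (i + 1) := by
    intro i v hv
    rw [hY] at hv ⊢
    obtain ⟨hvK, i', hi', h⟩ := hv
    exact ⟨hvK, i', by omega, h⟩
  have hstat : ∀ i, Y i = Y (i + 1) → Y i = KK E j := by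
    intro i h
    have h1 : ∀ m, Y (i + m) = Y i := by
      intro m
      induction m with
      | zero => rfl
      | succ m ih =>
        apply Finset.Subset.antisymm
        · intro v hv
          rw [hY] at hv
          obtain ⟨hvK, i', hi', z, hz, hw⟩ := hv
          rcases Nat.eq_zero_or_pos i' with h0 | h0
          · rw [hY]; exact ⟨hvK, i', by omega, z, hz, hw⟩
          · obtain ⟨i'', rfl⟩ : ∃ i'', i' = i'' + 1 := ⟨i' - 1, by omega⟩
            obtain ⟨w, he, hw1⟩ := W_succ'.1 hw
            have hwK : w ∈ KK E j := KK_pred hw1 (hCK hz)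
            have hwZ : w ∈ Y (i + m) := (hY _ _).2 ⟨hwK, i'', by omega, z, hz, hw1⟩
            rw [ih, hY] at hwZ
            obtain ⟨-, i3, hi3, z', hz', hw'⟩ := hwZ
            rw [h, hY]
            exact ⟨hvK, i3 + 1, by omega, z', hz', W_succ'.2 ⟨w, he, hw'⟩⟩
        · rw [← add_assoc]
          exact (ih.symm ▸ hmono (i + m) : Y i ⊆ Y (i + m + 1))
    apply Finset.Subset.antisymm (fun v hv => ((hY _ _).1 hv).1)
    intro v hv
    obtain ⟨z, hz⟩ := hC
    obtain ⟨k0, hk0⟩ := KK_reach hg hv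
    rw [← h1 k0, hY]
    exact ⟨hv, k0, by omega, z, hz, hk0 z k0 le_rfl⟩
  have h0 : C.card ≤ (Y 0).card := by
    apply Finset.card_le_card
    intro v hv
    rw [hY]
    exact ⟨hCK hv, 0, le_rfl, v, hv, rfl⟩
  have hle := Finset.card_le_card hCK
  have := growth (KK E j) Y hmono (fun i v hv => ((hY _ _).1 hv).1) hstat C.card h0
    ((KK E j).card - C.card) (by omega)
  have hj : j ∈ Y ((KK E j).card - C.card) := by rw [this]; exact self_mem_KK j
  obtain ⟨-, i, hi, z, hz, hw⟩ := (hY _ _).1 hj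
  exact ⟨z, hz, i, hi, hw⟩

/-- The Dulmage–Mendelsohn type bound. -/
theorem upper {s : ℕ} (hs1 : 1 ≤ s) {z0 : V} (hz0 : z0 ∈ KK E j) (hs : W E s z0 z0)
    (hmin : ∀ b, 1 ≤ b → ∀ z ∈ KK E j, W E b z z → s ≤ b) :
    s ≤ (KK E j).card ∧ ∀ k, (KK E j).card - s + s * ((KK E j).card - 1) +
      (Fintype.card V - (KK E j).card) ≤ k → ∀ v, W E k j v := by
  obtain ⟨c, h0, h1, h2, h3, h4⟩ := simple_closed hz0 hs (fun b hb1 hb2 => hmin b hb1 z0 hz0 hb2)
  obtain ⟨C, hC1, hC2, hC3, hC4⟩ := cycle_set h0 h1 h2 h3 h4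
  have hsd : s ≤ (KK E j).card := by rw [← hC1]; exact Finset.card_le_card hC2
  refine ⟨hsd, ?_⟩
  have hCne : C.Nonempty := by
    rw [← Finset.card_pos]; omega
  obtain ⟨z, hz, i, hi, hw⟩ := reach_set hg hCne hC2
  rw [hC1] at hi
  -- closed walks of length `s` at each vertex of `C`
  have hloop : ∀ x ∈ C, W E s x x := by
    intro x hx
    obtain ⟨a, b, hab, h5, h6⟩ := hC3 x hx x hx
    rw [← hab]
    exact W_trans h5 h6
  -- walking along the cycle
  have hwalk : ∀ e, ∃ x ∈ C, W E e z x := by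
    intro e
    induction e with
    | zero => exact ⟨z, hz, rfl⟩
    | succ e ih =>
      obtain ⟨x, hx, hwx⟩ := ih
      obtain ⟨y, hy, he⟩ := hC4 x hx
      exact ⟨y, hy, x, hwx, he⟩
  obtain ⟨x, hx, hwx⟩ := hwalk ((KK E j).card - s - i)
  have h5 := W_trans hw hwx
  rw [show i + ((KK E j).card - s - i) = (KK E j).card - s by omega] at h5
  have h6 : ∀ v ∈ KK E j, W E ((KK E j).card - s + s * ((KK E j).card - 1)) j v := by
    intro v hv
    exact W_trans h5 (cover_of_loop hg (hC2 hx) hs1 (hloop x hx) hv (by omega))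
  intro k hk v
  exact all_of_KK hg h6 hk v

omit [Fintype V] [DecidableEq V] hg in
/-- flexible walks -/
theorem flex_of {s a b c : ℕ} {u x y v : V} (h1 : W E a u x) (h2 : W E b x y) (h3 : W E c y v)
    (hx : W E s x x) (hy : W E (s + 1) y y) (p q : ℕ) :
    W E (a + b + c + (p * s + q * (s + 1))) u v := by
  have := W_trans (W_trans (W_trans (W_trans h1 (W_mul hx p)) h2) (W_mul hy q)) h3
  rwa [show a + p * s + b + q * (s + 1) + c = a + b + c + (p * s + q * (s + 1)) by ring] at this

omit [Fintype V] [DecidableEq V] hg in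
theorem flex_of' {s a b c : ℕ} {u x y v : V} (h1 : W E a u y) (h2 : W E b y x) (h3 : W E c x v)
    (hx : W E s x x) (hy : W E (s + 1) y y) (p q : ℕ) :
    W E (a + b + c + (p * s + q * (s + 1))) u v := by
  have := W_trans (W_trans (W_trans (W_trans h1 (W_mul hy q)) h2) (W_mul hx p)) h3
  rwa [show a + q * (s + 1) + b + p * s + c = a + b + c + (p * s + q * (s + 1)) by ring] at this

omit hg in
/-- a walk which is injective on at least three of its vertices is flexible -/
theorem flex_walk {s : ℕ} {C C' : Finset V} (hCK : C ⊆ KK E j) (hCK' : C' ⊆ KK E j)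
    (hC : C.card = s) (hC' : C'.card = s + 1) (hd : (KK E j).card = s + 2)
    (hl : ∀ x ∈ C, W E s x x) (hl' : ∀ x ∈ C', W E (s + 1) x x)
    {c : ℕ → V} {L M : ℕ} (h2 : ∀ i < L, E (c i) (c (i + 1))) (hK : ∀ i ≤ L, c i ∈ KK E j)
    (hML : M ≤ L + 1) (hM : 3 ≤ M) (hinj : Set.InjOn c (Set.Iio M)) (p q : ℕ) :
    W E (L + (p * s + q * (s + 1))) (c 0) (c L) := by
  classical
  set T := (Finset.range M).image c with hT
  have hTc : T.card = M := by
    rw [hT, Finset.card_image_of_injOn, Finset.card_range]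
    simpa using hinj
  have hTK : T ⊆ KK E j := by
    intro x hx
    obtain ⟨i, hi, rfl⟩ := Finset.mem_image.1 hx
    exact hK i (by have := Finset.mem_range.1 hi; omega)
  have hit : ∀ D : Finset V, D ⊆ KK E j → s ≤ D.card → ∃ a ≤ L, c a ∈ D := by
    intro D hD hDc
    by_contra hcon
    push Not at hcon
    have hdis : Disjoint T D := by
      rw [Finset.disjoint_left]
      intro x hx hxD
      obtain ⟨i, hi, rfl⟩ := Finset.mem_image.1 hx
      exact hcon i (by have := Finset.mem_range.1 hi; omega) hxD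
    have h5 := Finset.card_le_card (Finset.union_subset hTK hD)
    rw [Finset.card_union_of_disjoint hdis] at h5
    omega
  obtain ⟨a, ha, hxa⟩ := hit C hCK (by omega)
  obtain ⟨b, hb, hyb⟩ := hit C' hCK' (by omega)
  rcases le_total a b with hab | hab
  · have := flex_of (W_seg h2 (Nat.zero_le a) ha) (W_seg h2 hab hb) (W_seg h2 hb le_rfl)
      (hl _ hxa) (hl' _ hyb) p q
    rwa [show a - 0 + (b - a) + (L - b) = L by omega] at this
  · have := flex_of' (W_seg h2 (Nat.zero_le b) hb) (W_seg h2 hab ha) (W_seg h2 ha le_rfl)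
      (hl _ hxa) (hl' _ hyb) p q
    rwa [show b - 0 + (a - b) + (L - a) = L by omega] at this

/-- The case `s = d - 2` with a closed walk of length `d - 1`. -/
theorem upper_two {s : ℕ} (hs3 : 3 ≤ s) {z0 : V} (hz0 : z0 ∈ KK E j) (hs : W E s z0 z0)
    (hmin : ∀ b, 1 ≤ b → ∀ z ∈ KK E j, W E b z z → s ≤ b) (hd : (KK E j).card = s + 2)
    {z1 : V} (hz1 : z1 ∈ KK E j) (hs' : W E (s + 1) z1 z1) :
    ∀ k, s + 2 + (s - 1) * s + (Fintype.card V - (KK E j).card) ≤ k → ∀ v, W E k j v := by
  classical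
  obtain ⟨c, h0, h1, h2, h3, h4⟩ := simple_closed hz0 hs (fun b hb1 hb2 => hmin b hb1 z0 hz0 hb2)
  obtain ⟨C, hC1, hC2, hC3, hC4⟩ := cycle_set h0 h1 h2 h3 h4
  have hloop : ∀ x ∈ C, W E s x x := by
    intro x hx
    obtain ⟨a, b, hab, h5, h6⟩ := hC3 x hx x hx
    rw [← hab]
    exact W_trans h5 h6
  -- the `(s+1)`-cycle
  obtain ⟨C', hC1', hC2', hC3', hC4'⟩ : ∃ C : Finset V, C.card = s + 1 ∧ C ⊆ KK E j ∧
      (∀ x ∈ C, ∀ y ∈ C, ∃ a b, a + b = s + 1 ∧ W E a x y ∧ W E b y x) ∧
      ∀ x ∈ C, ∃ y ∈ C, E x y := by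
    obtain ⟨c', k0, k1, k2⟩ := W_iff_walk.1 hs'
    have k3 : ∀ i ≤ s + 1, c' i ∈ KK E j := by
      intro i hi
      have := W_seg k2 hi le_rfl
      rw [k1] at this
      exact KK_pred this hz1
    refine cycle_set k0 k1 k2 k3 ?_
    intro a ha b hb hab
    rw [Set.mem_Iio] at ha hb
    by_contra hne
    wlog hlt : a < b generalizing a b
    · exact this hb ha hab.symm (fun h => hne h.symm) (by omega)
    have h5 := W_seg k2 (Nat.zero_le a) (by omega : a ≤ s + 1)
    have h6 := W_seg k2 (by omega : b ≤ s + 1) le_rfl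
    rw [← hab] at h6
    have h7 := W_trans h5 h6
    rw [k0, k1] at h7
    have h8 := hmin _ (by omega) z1 hz1 h7
    have h9 := W_seg k2 hlt.le (by omega : b ≤ s + 1)
    rw [← hab] at h9
    have h10 := hmin _ (by omega) _ (k3 a (by omega)) h9
    omega
  have hloop' : ∀ x ∈ C', W E (s + 1) x x := by
    intro x hx
    obtain ⟨a, b, hab, h5, h6⟩ := hC3' x hx x hx
    rw [← hab]
    exact W_trans h5 h6
  -- flexible walks of length at most `d`
  have hflex : ∀ v ∈ KK E j, ∃ L ≤ s + 2, ∀ p q, W E (L + (p * s + q * (s + 1))) j v := by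
    intro v hv
    by_cases hjv : v = j
    · subst hjv
      -- shortest closed walk at `j`
      have hex : ∃ L, 1 ≤ L ∧ W E L v v := ⟨g + 1, by omega, hg v _ (by omega)⟩
      classical
      set L := Nat.find hex with hL
      obtain ⟨hL1, hL2⟩ := Nat.find_spec hex
      rw [← hL] at hL1 hL2
      obtain ⟨e, e0, e1, e2, e3, e4⟩ := simple_closed hv hL2 (fun b hb1 hb2 => by
        rw [hL]; exact Nat.find_min' hex ⟨hb1, hb2⟩)
      have hLs := hmin L hL1 v hv hL2
      obtain ⟨D, hD1, hD2, -, -⟩ := cycle_set e0 e1 e2 e3 e4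
      have hLd := Finset.card_le_card hD2
      refine ⟨L, by omega, fun p q => ?_⟩
      have := flex_walk hC2 hC2' hC1 hC1' hd hloop hloop' e2 e3 (M := L) (by omega) (by omega) e4 p q
      rwa [e0, e1] at this
    · have hex : ∃ L, W E L j v := ⟨g, hg v _ le_rfl⟩
      set L := Nat.find hex with hL
      have hL2 := Nat.find_spec hex
      rw [← hL] at hL2
      obtain ⟨e, e0, e1, e2, e3, e4⟩ := simple_path hv hL2 (fun b hb2 => by
        rw [hL]; exact Nat.find_min' hex hb2)
      have hLd : L + 1 ≤ s + 2 := by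
        rw [← hd]
        have : ((Finset.range (L + 1)).image e).card = L + 1 := by
          rw [Finset.card_image_of_injOn, Finset.card_range]
          simpa using e4
        rw [← this]
        apply Finset.card_le_card
        intro x hx
        obtain ⟨i, hi, rfl⟩ := Finset.mem_image.1 hx
        exact e3 i (by have := Finset.mem_range.1 hi; omega)
      rcases Nat.lt_or_ge L 2 with hL3 | hL3
      · have hL4 : L = 1 := by
          rcases Nat.eq_zero_or_pos L with h | h
          · rw [h] at hL2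
            exact absurd hL2 (fun h => hjv h.symm)
          · omega
        rw [hL4] at hL2
        -- a common vertex of `C` and `C'`
        obtain ⟨y, hyC, hyC'⟩ : ∃ y, y ∈ C ∧ y ∈ C' := by
          by_contra hcon
          push Not at hcon
          have hdis : Disjoint C C' := Finset.disjoint_left.2 hcon
          have h5 := Finset.card_le_card (Finset.union_subset hC2 hC2')
          rw [Finset.card_union_of_disjoint hdis] at h5
          omega
        have hor : j ∈ C' ∨ v ∈ C' := by
          by_contra hcon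
          push Not at hcon
          have h5 : insert j (insert v C') ⊆ KK E j := by
            intro x hx
            rw [Finset.mem_insert, Finset.mem_insert] at hx
            rcases hx with rfl | rfl | hx
            · exact self_mem_KK _
            · exact hv
            · exact hC2' hx
          have h6 := Finset.card_le_card h5
          rw [Finset.card_insert_of_notMem, Finset.card_insert_of_notMem hcon.2] at h6
          · omega
          · rw [Finset.mem_insert]
            push Not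
            exact ⟨fun h => hjv h.symm, hcon.1⟩
        have hy0 : W E 0 y y := rfl
        rcases hor with h | h
        · obtain ⟨a, b, hab, h5, h6⟩ := hC3' j h y hyC'
          refine ⟨s + 2, le_rfl, fun p q => ?_⟩
          have := flex_of h5 hy0 (W_trans h6 hL2) (hloop y hyC) (hloop' y hyC') p q
          rwa [show a + 0 + (b + 1) = s + 2 by omega] at this
        · obtain ⟨a, b, hab, h5, h6⟩ := hC3' v h y hyC'
          refine ⟨s + 2, le_rfl, fun p q => ?_⟩
          have := flex_of (W_trans hL2 h5) hy0 h6 (hloop y hyC) (hloop' y hyC') p q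
          rwa [show 1 + a + 0 + b = s + 2 by omega] at this
      · refine ⟨L, by omega, fun p q => ?_⟩
        have := flex_walk hC2 hC2' hC1 hC1' hd hloop hloop' e2 e3 (M := L + 1) le_rfl (by omega) e4 p q
        rwa [e0, e1] at this
  intro k hk v
  refine all_of_KK hg (k := s + 2 + (s - 1) * s) ?_ hk v
  intro v hv
  obtain ⟨L, hL, hfl⟩ := hflex v hv
  obtain ⟨p, q, hpq⟩ := rep_of_ge (s := s) (l := s + 1) (x := s + 2 + (s - 1) * s - L)
    ((Nat.coprime_self_add_right (m := s) (n := 1)).2 (Nat.coprime_one_right _))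
    (by rw [Nat.add_sub_cancel]; omega)
  have := hfl p q
  rwa [← hpq, show L + (s + 2 + (s - 1) * s - L) = s + 2 + (s - 1) * s by omega] at this

end Pool.Agent.H43.Gaps
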