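import Mathlib
import Pool.Agent.H43.Gaps.Upper
import Pool.Agent.H43.Gaps.Cover

/-!
# Order `2`: determination of `R_j(2, n)`
-/

set_option autoImplicit false

namespace Pool.Agent.H43.Gaps

variable {n : ℕ}

/-- the digraph of an order `2` array: arc `v → u` iff `A (u, v) > 0` -/
def Ed (A : (Fin 2 → Fin n) → ℝ) (v u : Fin n) : Prop := 0 < A ![u, v]

theorem mem_S_iff (A : (Fin 2 → Fin n) → ℝ) (j : Fin n) (k : ℕ) (u : Fin n) :
    u ∈ S A j k ↔ W (Ed A) k j u := by
  induction k generalizing u with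
  | zero => simp [S, W, eq_comm]
  | succ k ih =>
    show u ∈ next A (S A j k) ↔ ∃ w, W (Ed A) k j w ∧ Ed A w u
    constructor
    · rintro ⟨i, h0, h1, h2⟩
      refine ⟨i 1, (ih _).1 (h1 1 (by decide)), ?_⟩
      unfold Ed
      have : ![u, i 1] = i := by
        funext l
        fin_cases l
        · exact (h0 0 rfl).symm
        · rfl
      rw [this]; exact h2
    · rintro ⟨w, hw, he⟩
      refine ⟨![u, w], ?_, ?_, he⟩
      · intro l hl
        have : l = 0 := Fin.ext hl
        subst this; rfl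
      · intro l hl
        fin_cases l
        · exact absurd rfl hl
        · exact (ih _).2 hw

theorem bounds {N g : ℕ} {j : Fin (N + 3)} (hmem : g ∈ R 2 (N + 3) j) :
    1 ≤ g ∧ g ≤ (N + 1) * (N + 1) + 2 ∧ ¬ (Even N ∧ N * N + 4 ≤ g ∧ g < N * (N + 1)) := by
  classical
  obtain ⟨A, -, hp, ⟨hg1, hgu⟩, hmin⟩ := hmem
  have hg : ∀ v, ∀ k, g ≤ k → W (Ed A) k j v := by
    intro v k hk
    rw [← mem_S_iff, S_univ_of_le A hg1 hgu hk]
    trivial
  have hle : ∀ k, 1 ≤ k → (∀ v, W (Ed A) k j v) → g ≤ k := by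
    intro k hk1 hk
    apply hmin
    refine ⟨hk1, Set.eq_univ_of_forall fun v => ?_⟩
    rw [mem_S_iff]; exact hk v
  -- the strong component is a proper subset
  set d := (KK (Ed A) j).card with hd
  have hd1 : 1 ≤ d := by
    rw [Nat.one_le_iff_ne_zero, hd, Finset.card_ne_zero]
    exact ⟨j, self_mem_KK j⟩
  have hd2 : d ≤ N + 2 := by
    have hex : ∃ i, ¬ JPrimitive A i := by
      by_contra hcon
      push Not at hcon
      exact hp hcon
    obtain ⟨i, hi⟩ := hex
    have hiK : i ∉ KK (Ed A) j := by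
      intro hiK
      obtain ⟨k0, hk0⟩ := KK_reach hg hiK
      apply hi
      refine ⟨k0 + 1, by omega, Set.eq_univ_of_forall fun v => ?_⟩
      rw [mem_S_iff]; exact hk0 v _ (by omega)
    have := Finset.card_lt_univ_of_notMem hiK
    rw [Fintype.card_fin] at this
    omega
  -- the girth
  have hex : ∃ s, 1 ≤ s ∧ ∃ z ∈ KK (Ed A) j, W (Ed A) s z z :=
    ⟨g, hg1, j, self_mem_KK j, hg j g le_rfl⟩
  set s := Nat.find hex with hs
  obtain ⟨hs1, z0, hz0, hsW⟩ := Nat.find_spec hex
  rw [← hs] at hs1 hsW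
  have hsmin : ∀ b, 1 ≤ b → ∀ z ∈ KK (Ed A) j, W (Ed A) b z z → s ≤ b := by
    intro b hb z hz hW
    rw [hs]
    exact Nat.find_min' hex ⟨hb, z, hz, hW⟩
  obtain ⟨hsd, hub⟩ := upper hg hs1 hz0 hsW hsmin
  rw [← hd, Fintype.card_fin] at hub
  rw [← hd] at hsd
  have hgub : g ≤ d - s + s * (d - 1) + (N + 3 - d) :=
    hle _ (by omega) (fun v => hub _ le_rfl v)
  refine ⟨hg1, ?_⟩
  rcases Nat.lt_or_ge d 2 with hd3 | hd3
  · -- `d = 1`
    have hd4 : d = 1 := by omega
    rw [hd4] at hgub hsd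
    simp only [Nat.sub_self, Nat.mul_zero, Nat.add_zero] at hgub
    have hgN : g ≤ N + 2 := by omega
    constructor
    · nlinarith
    · rintro ⟨-, h1, h2⟩
      nlinarith
  -- `s < d`
  have hsd' : s ≤ d - 1 := by
    by_contra hcon
    have hsd2 : s = d := by omega
    have hdvd : ∀ L, W (Ed A) L j j → d ∣ L := by
      apply closed_walk_ind (j := j) (fun x => d ∣ x) (dvd_zero d) _ (self_mem_KK j)
      rintro x b hx hb1 hb2 ⟨z, hz, hW⟩
      have := hsmin b hb1 z hz hW
      have hbd : b = d := by omega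
      rw [hbd]
      exact (Nat.dvd_add_self_right).2 hx
    have h1 := hdvd g (hg j g le_rfl)
    have h2 := hdvd (g + 1) (hg j (g + 1) (by omega))
    have h3 := (Nat.dvd_add_right h1).1 h2
    have := Nat.le_of_dvd one_pos h3
    omega
  obtain ⟨e, he⟩ : ∃ e, d = e + 2 := ⟨d - 2, by omega⟩
  have hgub2 : g ≤ N + 3 + s * e := by
    have h1 : s * (d - 1) = s * e + s := by
      rw [he, show e + 2 - 1 = e + 1 from rfl, Nat.mul_add, Nat.mul_one]
    rw [h1] at hgub
    omega
  have hse : s ≤ e + 1 := by omega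
  have heN : e ≤ N := by omega
  constructor
  · have h1 : s * e ≤ (N + 1) * N := Nat.mul_le_mul (by omega) heN
    nlinarith
  rintro ⟨hNe, hg2, hg3⟩
  have hN5 : 5 ≤ N := by
    by_contra hcon
    have : N < 5 := by omega
    nlinarith
  obtain ⟨M, hM⟩ : ∃ M, N = M + 1 := ⟨N - 1, by omega⟩
  -- `d = N + 2`
  have heN2 : e = N := by
    by_contra hcon
    have h2 : e ≤ M := by omega
    have h1 : s * e ≤ (M + 1) * M := Nat.mul_le_mul (by omega) h2
    rw [hM] at hg2 hgub2
    nlinarith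
  have hsN : N ≤ s := by
    by_contra hcon
    have h2 : s ≤ M := by omega
    have h1 : s * e ≤ M * (M + 1) := Nat.mul_le_mul h2 (by omega)
    rw [hM] at hg2 hgub2
    nlinarith
  rcases Nat.lt_or_ge N s with h | h
  · -- `s = N + 1`
    have hsN1 : s = N + 1 := by omega
    have hrep : ∀ L, W (Ed A) L j j → ∃ a b, L = a * (N + 1) + b * (N + 2) := by
      apply closed_walk_ind (j := j) (fun x => ∃ a b, x = a * (N + 1) + b * (N + 2))
        ⟨0, 0, by simp⟩ _ (self_mem_KK j)
      rintro x b ⟨a', b', hx⟩ hb1 hb2 ⟨z, hz, hW⟩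
      have := hsmin b hb1 z hz hW
      rw [← hd] at hb2
      rcases Nat.lt_or_ge (N + 1) b with h5 | h5
      · have : b = N + 2 := by omega
        refine ⟨a', b' + 1, ?_⟩
        rw [this, hx]; ring
      · have : b = N + 1 := by omega
        refine ⟨a' + 1, b', ?_⟩
        rw [this, hx]; ring
    obtain ⟨a, b, hab⟩ := hrep (N * (N + 1) - 1) (hg j _ (by omega))
    have := not_rep (s := N + 1) (l := N + 2)
      ((Nat.coprime_self_add_right (m := N + 1) (n := 1)).2 (Nat.coprime_one_right _))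
      (by omega) (by omega) a b
    apply this
    rw [← hab]
    simp only [show N + 1 - 1 = N from rfl, show N + 2 - 1 = N + 1 from rfl]
    omega
  · -- `s = N`
    have hsN1 : s = N := by omega
    have hodd : ∃ z ∈ KK (Ed A) j, W (Ed A) (N + 1) z z := by
      by_contra hcon
      push Not at hcon
      have heven : ∀ L, W (Ed A) L j j → Even L := by
        apply closed_walk_ind (j := j) (fun x => Even x) (by simp) _ (self_mem_KK j)
        rintro x b hx hb1 hb2 ⟨z, hz, hW⟩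
        have h6 := hsmin b hb1 z hz hW
        rw [← hd] at hb2
        have h7 : b ≠ N + 1 := by
          rintro rfl
          exact hcon z hz hW
        have h8 : b = N ∨ b = N + 2 := by omega
        rcases h8 with rfl | rfl
        · exact hx.add hNe
        · exact hx.add (hNe.add (by decide))
      have h1 := heven g (hg j g le_rfl)
      have h2 := heven (g + 1) (hg j (g + 1) (by omega))
      rw [Nat.even_add_one] at h2
      exact h2 h1
    obtain ⟨z1, hz1, hW1⟩ := hodd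
    rw [hsN1] at hsW hsmin
    have hcard : (KK (Ed A) j).card = N + 2 := by rw [← hd]; omega
    have := upper_two hg (s := N) (by omega) hz0 hsW hsmin hcard hz1 hW1
    rw [Fintype.card_fin, hcard] at this
    have h9 := hle (N + 2 + (N - 1) * N + (N + 3 - (N + 2))) (by omega) (fun v => this _ le_rfl v)
    rw [hM, show M + 1 - 1 = M from rfl] at h9
    rw [hM] at hg2
    have h10 : M + 1 + 3 - (M + 1 + 2) = 1 := by omega
    rw [h10] at h9
    nlinarith

/-- The determination of `R_j(2, n)` for `n ≥ 3`, with `n = N + 3`. -/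
theorem R_two (N : ℕ) (j : Fin (N + 3)) : R 2 (N + 3) j =
    {t | 1 ≤ t ∧ t ≤ (N + 1) * (N + 1) + 2 ∧
      ¬ (Even N ∧ N * N + 4 ≤ t ∧ t < N * (N + 1))} := by
  ext t
  constructor
  · intro h; exact bounds h
  · rintro ⟨h1, h2, h3⟩
    exact mem_R2 j h1 h2 h3

theorem hasGap_two_iff {n : ℕ} (hn : 2 ≤ n) (j : Fin n) : HasGap 2 n j ↔ Odd n ∧ 9 ≤ n := by
  rcases Nat.lt_or_ge n 3 with h | h
  · constructor
    · intro h1
      exact absurd h1 (no_gap_of_le le_rfl (by omega) j)
    · rintro ⟨-, h1⟩; omega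
  obtain ⟨N, rfl⟩ : ∃ N, n = N + 3 := ⟨n - 3, by omega⟩
  unfold HasGap
  rw [R_two]
  constructor
  · rintro ⟨k, hk, ⟨a, ⟨ha1, -, -⟩, hak⟩, ⟨b, ⟨-, hb2, -⟩, hkb⟩⟩
    have h5 : Even N ∧ N * N + 4 ≤ k ∧ k < N * (N + 1) := by
      by_contra hcon
      exact hk ⟨by omega, by omega, hcon⟩
    obtain ⟨h6, h7, h8⟩ := h5
    have h9 : 5 ≤ N := by
      by_contra hcon
      have : N < 5 := by omega
      nlinarith
    obtain ⟨r, hr⟩ := h6
    exact ⟨⟨r + 1, by omega⟩, by omega⟩
  · rintro ⟨⟨r, hr⟩, h9⟩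
    refine ⟨N * N + 4, ?_, ⟨1, ⟨le_rfl, by nlinarith, ?_⟩, by nlinarith⟩,
      ⟨(N + 1) * (N + 1) + 2, ⟨by nlinarith, le_rfl, ?_⟩, by nlinarith⟩⟩
    · rintro ⟨-, -, h⟩
      apply h
      exact ⟨⟨r - 1, by omega⟩, le_rfl, by nlinarith⟩
    · rintro ⟨-, h, -⟩; nlinarith
    · rintro ⟨-, -, h⟩; nlinarith

end Pool.Agent.H43.Gaps
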